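import Pool.Agent.N817.PL.AdSolv
import Pool.Agent.W528.Ord.Dens

/-!
# Number fields: Frobenius ratios in `ℚ_p`
-/

set_option autoImplicit false
set_option linter.unusedSectionVars false

namespace Pool.Agent.N817.PL.Main2

open Pool.Agent.N817.PL.DD Pool.Agent.N817.PL.Nrm Pool.Agent.N817.PL.Abs Pool.Agent.N817.PL.Ad
open Pool.Agent.N817.PL.Abs3
open Filter Topology Polynomial MeasureTheory NumberField IsDedekindDomain
open Pool.Agent.W401.Cheb Pool.Agent.W528.Ord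

section cheb

variable {K : Type} [Field K] [NumberField K]

/-- a closed set which contains Frobenius elements of a set of places of upper density one is
everything -/
theorem closed_univ (S : Set (GK K)) (hS : IsClosed S)
    (hconj : ∀ σ ∈ S, ∀ τ : GK K, τ * σ * τ⁻¹ ∈ S) (P : Set (HeightOneSpectrum (𝓞 K)))
    (hP : ∀ ε : ℝ, 0 < ε → ∃ᶠ x : ℕ in atTop, dens (fun v => v ∉ P) x ≤ ε)
    (h : ∀ v ∈ P, ∃ g ∈ S, IsFrob v g) (g₀ : GK K) : g₀ ∈ S := by
  by_contra hg₀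
  have h1 : IsOpen ((fun x => g₀ * x) ⁻¹' Sᶜ) := hS.isOpen_compl.preimage (continuous_const_mul g₀)
  obtain ⟨V, hV⟩ := ProfiniteGrp.exist_openNormalSubgroup_sub_open_nhds_of_one h1 (by
    change g₀ * 1 ∈ Sᶜ
    rw [mul_one]
    exact hg₀)
  have hVo : IsOpen (V.toSubgroup : Set (GK K)) := V.isOpen'
  have hVn : V.toSubgroup.Normal := V.isNormal'
  have hfin : Finite (GK K ⧸ V.toSubgroup) := Subgroup.quotient_finite_of_isOpen _ hVo
  set D : Set (GK K) := {x | (QuotientGroup.mk x : GK K ⧸ V.toSubgroup) ∈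
    ((QuotientGroup.mk : GK K → GK K ⧸ V.toSubgroup) '' S)} with hD
  have hDD : (QuotientGroup.mk : GK K → GK K ⧸ V.toSubgroup) '' D =
      (QuotientGroup.mk : GK K → GK K ⧸ V.toSubgroup) '' S := by
    ext q
    constructor
    · rintro ⟨x, hx, rfl⟩
      exact hx
    · rintro ⟨z, hz, rfl⟩
      exact ⟨z, ⟨z, hz, rfl⟩, rfl⟩
  have keyD := chebK K V.toSubgroup hVo D (by
    rintro σ ⟨z, hz, hzσ⟩ τ
    refine ⟨τ * z * τ⁻¹, hconj z hz τ, ?_⟩
    have e1 : ((τ * z * τ⁻¹ : GK K) : GK K ⧸ V.toSubgroup) = (τ : GK K ⧸ V.toSubgroup) *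
      (z : GK K ⧸ V.toSubgroup) * ((τ : GK K ⧸ V.toSubgroup))⁻¹ := rfl
    have e2 : ((τ * σ * τ⁻¹ : GK K) : GK K ⧸ V.toSubgroup) = (τ : GK K ⧸ V.toSubgroup) *
      (σ : GK K ⧸ V.toSubgroup) * ((τ : GK K ⧸ V.toSubgroup))⁻¹ := rfl
    rw [e1, e2, hzσ]) (by
    rintro σ ⟨z, hz, hzσ⟩ u hu
    refine ⟨z, hz, ?_⟩
    rw [hzσ, QuotientGroup.eq]
    simpa using hu)
  have keyU := chebK K V.toSubgroup hVo Set.univ (fun _ _ _ => trivial) (fun _ _ _ _ => trivial)
  have hU1 : (((QuotientGroup.mk : GK K → GK K ⧸ V.toSubgroup) '' Set.univ).ncard : ℝ) /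
      (Nat.card (GK K ⧸ V.toSubgroup) : ℝ) = 1 := by
    rw [Set.image_univ, Set.range_eq_univ.2 QuotientGroup.mk_surjective, Set.ncard_univ]
    have hc : (0 : ℝ) < (Nat.card (GK K ⧸ V.toSubgroup) : ℝ) := by exact_mod_cast Nat.card_pos
    exact div_self hc.ne'
  rw [hU1] at keyU
  rw [hDD] at keyD
  set q : ℝ := (((QuotientGroup.mk : GK K → GK K ⧸ V.toSubgroup) '' S).ncard : ℝ) /
    (Nat.card (GK K ⧸ V.toSubgroup) : ℝ) with hq
  have hq1 : q < 1 := by
    have hc : (0 : ℝ) < (Nat.card (GK K ⧸ V.toSubgroup) : ℝ) := by exact_mod_cast Nat.card_pos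
    rw [hq, div_lt_one hc]
    have h2 : ((QuotientGroup.mk : GK K → GK K ⧸ V.toSubgroup) '' S) ≠ Set.univ := by
      intro h3
      have h4 : (QuotientGroup.mk g₀ : GK K ⧸ V.toSubgroup) ∈
          ((QuotientGroup.mk : GK K → GK K ⧸ V.toSubgroup) '' S) := by
        rw [h3]
        trivial
      obtain ⟨z, hz, hzg⟩ := h4
      have hzg' : (QuotientGroup.mk g₀ : GK K ⧸ V.toSubgroup) = QuotientGroup.mk z := hzg.symm
      rw [QuotientGroup.eq] at hzg'
      have h5 : g₀ * (g₀⁻¹ * z) ∈ Sᶜ := hV hzg'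
      rw [mul_inv_cancel_left] at h5
      exact h5 hz
    have h3 := Set.ncard_lt_card h2
    exact_mod_cast h3
  set ε : ℝ := (1 - q) / 4 with hε
  have hε0 : 0 < ε := by
    rw [hε]
    linarith
  have e1 := keyU.eventually (lt_mem_nhds (show 1 - ε < 1 by linarith))
  have e2 := keyD.eventually (gt_mem_nhds (show q < q + ε by linarith))
  obtain ⟨x, hx0, hx1, hx2⟩ := ((hP ε hε0).and_eventually (e1.and e2)).exists
  have h3 : dens (fun v : HeightOneSpectrum (𝓞 K) => ∃ σ ∈ (Set.univ : Set (GK K)), IsFrob v σ) x ≤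
      dens (fun v : HeightOneSpectrum (𝓞 K) => ∃ σ ∈ D, IsFrob v σ) x + dens (fun v => v ∉ P) x := by
    refine (dens_mono (fun v _ => ?_) x).trans (dens_or _ _ x)
    by_cases hv : v ∈ P
    · left
      obtain ⟨g, hg, hgv⟩ := h v hv
      exact ⟨g, ⟨g, hg, rfl⟩, hgv⟩
    · right
      exact hv
  have h4 : 4 * ε = 1 - q := by
    rw [hε]
    ring
  linarith

end cheb

section inv

variable {p : ℕ} [hp : Fact p.Prime] {F : Type*} [NormedField F] [NormedAlgebra ℚ_[p] F] {n : ℕ}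

theorem Spl_conj {A B T T' : Mat n F} {R : ℝ} (h : B * T = T * A) (hT : T * T' = 1) (m : ℕ)
    (h0 : A ^ m ∈ Spl.Spl p F n R) : B ^ m ∈ Spl.Spl p F n R := by
  have h1 : ∀ m : ℕ, B ^ m * T = T * A ^ m := by
    intro m
    induction m with
    | zero => rw [pow_zero, pow_zero, one_mul, mul_one]
    | succ m ih => rw [pow_succ, mul_assoc, h, ← mul_assoc, ih, mul_assoc, ← pow_succ]
  have hT' : T' * T = 1 := mul_eq_one_comm.1 hT
  let M : (Mat n F)ˣ := ⟨T, T', hT, hT'⟩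
  have h2 : B ^ m = (M : Mat n F) * A ^ m * (M⁻¹ : (Mat n F)ˣ) := by
    change B ^ m = T * A ^ m * T'
    rw [← h1, mul_assoc, hT, mul_one]
  obtain ⟨a, ha, haA⟩ := h0
  refine ⟨a, ha, ?_⟩
  rw [h2, Matrix.coe_units_inv, Matrix.charpoly_units_conj, haA]

end inv

attribute [local instance] nring nalg

/-- **Main theorem.** -/
theorem main {K : Type} [Field K] [NumberField K] (p : ℕ) [hp : Fact p.Prime] {F : Type}
    [NormedField F] [NormedAlgebra ℚ_[p] F] [FiniteDimensional ℚ_[p] F] {n : ℕ}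
    (r : GK K →* Mat n F) (hr : Continuous r) (hss : Ss r)
    (P : Set (HeightOneSpectrum (𝓞 K)))
    (hP : ∀ ε : ℝ, 0 < ε → ∃ᶠ x : ℕ in atTop, dens (fun v => v ∉ P) x ≤ ε)
    (heig : ∀ v ∈ P, ∃ g, IsFrob v g ∧ RatQ p (r g)) :
    ∃ U : OpenNormalSubgroup (GK K), ∀ u ∈ (U : Subgroup (GK K)), ∀ v ∈ (U : Subgroup (GK K)),
      r u * r v = r v * r u := by
  have hult : IsUltrametricDist F := ultra p F
  let instM : MeasurableSpace (GK K) := borel (GK K)
  have instB : BorelSpace (GK K) := ⟨rfl⟩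
  have hr' : Continuous (adr r) := by
    have h1 : Continuous fun g : GK K => (r g⁻¹).transpose :=
      (hr.comp continuous_inv).matrix_transpose
    exact (continuous_KK (F := F) (n := n)).comp (hr.prodMk h1)
  obtain ⟨U₁, -, hU₁⟩ := Top.exists_small (adr r) hr' Set.univ isOpen_univ (Set.mem_univ _)
  have hU₁n : (U₁ : Subgroup (GK K)).Normal := U₁.isNormal'
  set N := (U₁ : Subgroup (GK K)).index with hN
  have hN0 : 0 < N := Nat.pos_of_ne_zero (Top2.index_ne U₁)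
  have hpow : ∀ g, ‖adr r g ^ N - 1‖ ≤ 1 / 4 := by
    intro g
    rw [← map_pow]
    exact hU₁ _ (Subgroup.pow_index_mem (U₁ : Subgroup (GK K)) g)
  have hall : ∀ g, adr r g ^ N ∈ Spl.Spl p F (n * n) 1 := by
    refine closed_univ {g | adr r g ^ N ∈ Spl.Spl p F (n * n) 1}
      ((Spl.isClosed_Spl (p := p) (F := F) (n := n * n) 1).preimage (hr'.pow N)) ?_ P hP ?_
    · intro σ hσ τ
      refine Spl_conj (T := adr r τ) (T' := adr r τ⁻¹) (A := adr r σ) ?_ ?_ N hσ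
      · rw [← map_mul, ← map_mul]
        congr 1
        group
      · rw [← map_mul, mul_inv_cancel, map_one]
    · intro v hv
      obtain ⟨g, hg, hgr⟩ := heig v hv
      exact ⟨g, Spl.Spl_of_QpRoot (QpRoot_adr r g hgr) hN0 (hpow g), hg⟩
  have hQ : ∀ g, Spl.QpRoot p (adr r g) := fun g => Spl.QpRoot_of_Spl hN0 (hall g)
  obtain ⟨C, hC⟩ := Top.bounded r hr
  obtain ⟨U, hUU, hU⟩ := Top.exists_small r hr ((U₁ : Subgroup (GK K)) : Set (GK K)) U₁.isOpen'
    (U₁ : Subgroup (GK K)).one_mem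
  have hUn : (U : Subgroup (GK K)).Normal := U.isNormal'
  refine ⟨U, fun u hu v hv => ?_⟩
  exact AdSolv.abelian (p := p) r hss hC (U : Subgroup (GK K))
    (fun g v hv => hUn.conj_mem v hv g) hU (fun u hu => hU₁ u (hUU hu)) (fun u _ => hQ u) u hu v hv

end Pool.Agent.N817.PL.Main2
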