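import Mathlib

/-!
# Lie algebras all of whose elements are split over a field which is not quadratically closed
-/

set_option autoImplicit false
set_option linter.unusedSectionVars false

namespace Pool.Agent.N817.PL.Split

open Polynomial LieAlgebra LieModule Module

section lin

variable {k V : Type*} [Field k] [AddCommGroup V] [Module k V]

theorem iSup_top {f : End k V} {Q : Polynomial k} (hQ0 : Q ≠ 0) (hQ : Q.Splits)
    (h : aeval f Q = 0) : ⨆ μ, f.maxGenEigenspace μ = ⊤ := by
  classical
  have h1 : Q = C Q.leadingCoeff * ∏ a ∈ Q.roots.toFinset, (X - C a) ^ Q.roots.count a := by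
    conv_lhs => rw [hQ.eq_prod_roots]
    rw [Finset.prod_multiset_map_count]
  have h2 : aeval f (∏ a ∈ Q.roots.toFinset, (X - C a) ^ Q.roots.count a) = 0 := by
    rw [h1, map_mul, aeval_C] at h
    have h3 : Q.leadingCoeff ≠ 0 := leadingCoeff_ne_zero.2 hQ0
    have h4 : algebraMap k (End k V) (Q.leadingCoeff)⁻¹ * algebraMap k (End k V) Q.leadingCoeff = 1 := by
      rw [← map_mul, inv_mul_cancel₀ h3, map_one]
    calc _ = (algebraMap k (End k V) (Q.leadingCoeff)⁻¹ * algebraMap k (End k V) Q.leadingCoeff) *
        aeval f (∏ a ∈ Q.roots.toFinset, (X - C a) ^ Q.roots.count a) := by rw [h4, one_mul]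
      _ = 0 := by rw [mul_assoc, h, mul_zero]
  have h3 : ∀ s : Finset k, ∀ m : k → ℕ, LinearMap.ker (aeval f (∏ a ∈ s, (X - C a) ^ m a)) ≤
      ⨆ μ, f.maxGenEigenspace μ := by
    intro s m
    induction s using Finset.induction_on with
    | empty =>
      rw [Finset.prod_empty, map_one]
      intro x hx
      have : x = 0 := by simpa using hx
      rw [this]
      exact Submodule.zero_mem _
    | insert a s ha ih =>
      rw [Finset.prod_insert ha, ← sup_ker_aeval_eq_ker_aeval_mul_of_coprime]
      · refine sup_le (le_trans ?_ (le_iSup _ a)) ih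
        intro x hx
        rw [End.mem_maxGenEigenspace]
        refine ⟨m a, ?_⟩
        rw [LinearMap.mem_ker, map_pow, map_sub, aeval_X, aeval_C,
          Algebra.algebraMap_eq_smul_one] at hx
        exact hx
      · apply IsCoprime.prod_right
        intro b hb
        apply IsCoprime.pow
        apply isCoprime_X_sub_C_of_isUnit_sub
        rw [isUnit_iff_ne_zero, sub_ne_zero]
        rintro rfl
        exact ha hb
  have h4 := h3 Q.roots.toFinset (fun a => Q.roots.count a)
  rw [h2] at h4
  rw [eq_top_iff]
  intro x _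
  exact h4 rfl

end lin

section lie

variable {k L : Type*} [Field k] [LieRing L] [LieAlgebra k L]

/-- the quotient map -/
def quo (I : LieIdeal k L) : L →ₗ⁅k⁆ L ⧸ I :=
  { (LieSubmodule.Quotient.mk' I : L →ₗ[k] L ⧸ I) with
    map_lie' := fun {x y} => LieSubmodule.Quotient.mk_bracket I x y }

theorem quo_surj (I : LieIdeal k L) : Function.Surjective (quo I) :=
  LieSubmodule.Quotient.surjective_mk' I

theorem ext_solvable (I : LieIdeal k L) [IsSolvable I] (h : IsSolvable (L ⧸ I)) : IsSolvable L := by
  obtain ⟨m, hm⟩ := IsSolvable.solvable k (L ⧸ I)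
  obtain ⟨l, hl⟩ := IsSolvable.solvable k I
  rw [LieIdeal.derivedSeries_eq_bot_iff] at hl
  have h1 := LieIdeal.derivedSeries_map_le (f := quo I) m
  rw [hm, le_bot_iff] at h1
  have h2 : derivedSeries k L m ≤ I := by
    intro x hx
    have h3 := LieIdeal.mem_map (f := quo I) hx
    rw [h1, LieSubmodule.mem_bot] at h3
    exact (LieSubmodule.Quotient.mk_eq_zero' (N := I)).1 h3
  refine IsSolvable.mk (R := k) (k := l + m) ?_
  rw [derivedSeries_def, derivedSeriesOfIdeal_add, eq_bot_iff]
  refine le_trans (derivedSeriesOfIdeal_mono h2 l) ?_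
  rw [hl]

theorem aeval_quo' (I : LieIdeal k L) (x y : L) (Q : Polynomial k) :
    aeval (ad k (L ⧸ I) (quo I x)) Q (quo I y) = quo I (aeval (ad k L x) Q y) := by
  induction Q using Polynomial.induction_on' with
  | add p q hp hq =>
    rw [map_add, map_add, LinearMap.add_apply, LinearMap.add_apply, hp, hq, map_add]
  | monomial m c =>
    have h1 : ∀ m : ℕ, ((ad k (L ⧸ I) (quo I x)) ^ m) (quo I y) = quo I (((ad k L x) ^ m) y) := by
      intro m
      induction m with
      | zero => rfl
      | succ m ih =>
        rw [pow_succ', Module.End.mul_apply, ih, pow_succ', Module.End.mul_apply, ad_apply, ad_apply,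
          LieHom.map_lie]
    rw [aeval_monomial, aeval_monomial, Module.End.mul_apply, Module.End.mul_apply, h1,
      Module.algebraMap_end_apply, Module.algebraMap_end_apply, map_smul]

theorem aeval_quo (I : LieIdeal k L) (x : L) (Q : Polynomial k) (h : aeval (ad k L x) Q = 0) :
    aeval (ad k (L ⧸ I) (quo I x)) Q = 0 := by
  ext y
  obtain ⟨y, rfl⟩ := quo_surj I y
  rw [aeval_quo', h]
  simp

end lie

section main

variable {k L : Type*} [Field k] [CharZero k] [LieRing L] [LieAlgebra k L]
  [FiniteDimensional k L]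

theorem killing_case (t : k) (ht : ¬ IsSquare t)
    (h : ∀ x : L, ∃ Q : Polynomial k, Q ≠ 0 ∧ Q.Splits ∧ aeval (ad k L x) Q = 0)
    [IsKilling k L] : Subsingleton L := by
  classical
  obtain ⟨x₀, hx₀⟩ := exists_isCartanSubalgebra_engel k L
  set H := LieSubalgebra.engel k x₀ with hH
  have htri : IsTriangularizable k H L := ⟨fun x => by
    obtain ⟨Q, hQ0, hQ, hQx⟩ := h x
    exact iSup_top hQ0 hQ hQx⟩
  by_contra hne
  obtain ⟨α, hα⟩ : ∃ α : Weight k H L, α.IsNonZero := by
    by_contra hno
    push Not at hno
    have h1 := LieAlgebra.IsKilling.span_weight_isNonZero_eq_top k L H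
    have h2 : {α : Weight k H L | α.IsNonZero} = ∅ := by
      ext α
      simp only [Set.mem_ofPred_eq, Set.mem_empty_iff_false, iff_false]
      exact fun h => h (hno α)
    rw [h2, Set.image_empty, Submodule.span_empty] at h1
    have h3 : Subsingleton (Module.Dual k H) := by
      refine ⟨fun a b => ?_⟩
      have ha : a ∈ (⊥ : Submodule k (Module.Dual k H)) := by
        rw [h1]
        trivial
      have hb : b ∈ (⊥ : Submodule k (Module.Dual k H)) := by
        rw [h1]
        trivial
      rw [Submodule.mem_bot] at ha hb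
      rw [ha, hb]
    have h4 : x₀ = 0 := by
      have h5 : (⟨x₀, LieSubalgebra.self_mem_engel k x₀⟩ : H) = 0 := by
        rw [← Module.forall_dual_apply_eq_zero_iff k]
        intro φ
        rw [Subsingleton.elim φ 0]
        rfl
      exact congrArg Subtype.val h5
    have h6 : H = ⊤ := by
      rw [hH, h4]
      exact LieSubalgebra.engel_zero k
    apply hne
    refine ⟨fun a b => ?_⟩
    have h7 : ∀ a : L, a = 0 := by
      intro a
      have ha : a ∈ H := by
        rw [h6]
        trivial
      have h5 : (⟨a, ha⟩ : H) = 0 := by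
        rw [← Module.forall_dual_apply_eq_zero_iff k]
        intro φ
        rw [Subsingleton.elim φ 0]
        rfl
      exact congrArg Subtype.val h5
    rw [h7 a, h7 b]
  obtain ⟨y, e, f, hs, -, -⟩ := LieAlgebra.IsKilling.exists_isSl2Triple_of_weight_isNonZero hα
  have e1 : ⁅y, e⁆ = (2 : k) • e := hs.lie_h_e_smul k
  have e2 : ⁅y, f⁆ = -((2 : k) • f) := hs.lie_lie_smul_f k
  have e3 : ⁅e, f⁆ = y := hs.lie_e_f
  obtain ⟨Q, hQ0, hQ, hQx⟩ := h (e + t • f)
  set A := ad k L (e + t • f) with hA
  have a1 : A y = -((2 : k) • e) + (2 * t) • f := by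
    rw [hA, ad_apply, add_lie, smul_lie, ← lie_skew e y, e1, ← lie_skew f y, e2, neg_neg,
      smul_smul, mul_comm]
  have a2 : A (A y) = (4 * t) • y := by
    rw [a1, hA, ad_apply, add_lie, smul_lie, lie_add, lie_add, lie_neg, lie_neg, lie_smul, lie_smul,
      lie_smul, lie_smul, lie_self, lie_self, e3, ← lie_skew f e, e3]
    simp only [smul_zero, neg_zero, zero_add, add_zero, smul_neg, neg_neg, smul_smul, ← add_smul]
    congr 1
    ring
  have hnr : ∀ a : k, ¬ IsRoot (X ^ 2 - C (4 * t)) a := by
    intro a ha
    apply ht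
    refine ⟨a / 2, ?_⟩
    rw [IsRoot.def, eval_sub, eval_pow, eval_X, eval_C, sub_eq_zero] at ha
    have h2 : (2 : k) ≠ 0 := two_ne_zero
    field_simp
    rw [ha]
    ring
  have hcop : IsCoprime (X ^ 2 - C (4 * t)) Q := by
    rw [hQ.eq_prod_roots]
    apply IsCoprime.mul_right
    · have h3 : Q.leadingCoeff ≠ 0 := leadingCoeff_ne_zero.2 hQ0
      have h4 : IsUnit (C Q.leadingCoeff) := isUnit_C.2 (isUnit_iff_ne_zero.2 h3)
      exact isCoprime_one_right.of_isCoprime_of_dvd_right (h4.dvd)
    · have h5 : ∀ s : Multiset k, IsCoprime (X ^ 2 - C (4 * t)) (s.map fun a => X - C a).prod := by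
        intro s
        induction s using Multiset.induction_on with
        | empty => simpa using isCoprime_one_right
        | cons a s ih =>
          rw [Multiset.map_cons, Multiset.prod_cons]
          refine IsCoprime.mul_right ?_ ih
          rw [isCoprime_comm, (irreducible_X_sub_C a).coprime_iff_not_dvd, dvd_iff_isRoot]
          exact hnr a
      exact h5 _
  obtain ⟨u, v, huv⟩ := hcop
  have h8 := congrArg (fun g : End k L => g y) (congrArg (aeval A) huv)
  simp only [map_add, map_mul, map_pow, map_sub, aeval_X, map_one, LinearMap.add_apply,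
    Module.End.mul_apply, Module.End.one_apply, aeval_C, hQx, LinearMap.zero_apply, map_zero,
    add_zero] at h8
  have h9 : (A ^ 2 - algebraMap k (End k L) 4 * algebraMap k (End k L) t) y = 0 := by
    rw [LinearMap.sub_apply, pow_two, Module.End.mul_apply, a2, ← map_mul,
      Module.algebraMap_end_apply, sub_self]
  rw [h9, map_zero] at h8
  exact hs.h_ne_zero h8.symm

/-- **Solvability.** -/
theorem solvable_aux {k : Type*} [Field k] [CharZero k] (t : k) (ht : ¬ IsSquare t) (d : ℕ) :
    ∀ (L : Type*) [LieRing L] [LieAlgebra k L] [FiniteDimensional k L], finrank k L ≤ d →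
    (∀ x : L, ∃ Q : Polynomial k, Q ≠ 0 ∧ Q.Splits ∧ aeval (ad k L x) Q = 0) → IsSolvable L := by
  induction d with
  | zero =>
    intro L _ _ _ hd _
    have h1 : Subsingleton L := finrank_zero_iff.1 (Nat.le_zero.1 hd)
    infer_instance
  | succ d ih =>
    intro L _ _ _ hd h
    by_cases hr : radical k L = ⊥
    · have h1 : HasTrivialRadical k L := ⟨hr⟩
      have h2 : Subsingleton L := killing_case t ht h
      infer_instance
    · have h1 : IsSolvable (L ⧸ radical k L) := by
        refine ih (L ⧸ radical k L) ?_ ?_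
        · have h2 := Submodule.finrank_quotient_add_finrank (radical k L).toSubmodule
          have h3 : 0 < finrank k (radical k L).toSubmodule := by
            rw [Nat.pos_iff_ne_zero]
            intro h0
            apply hr
            rw [Submodule.finrank_eq_zero] at h0
            exact LieSubmodule.toSubmodule_injective h0
          have h4 : finrank k (L ⧸ radical k L) = finrank k (L ⧸ (radical k L).toSubmodule) := rfl
          omega
        · intro x
          obtain ⟨x, rfl⟩ := quo_surj (radical k L) x
          obtain ⟨Q, hQ0, hQ, hQx⟩ := h x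
          exact ⟨Q, hQ0, hQ, aeval_quo _ x Q hQx⟩
      exact ext_solvable (radical k L) h1

theorem solvable_of_split {k : Type*} [Field k] [CharZero k] (t : k) (ht : ¬ IsSquare t)
    (L : Type*) [LieRing L] [LieAlgebra k L] [FiniteDimensional k L]
    (h : ∀ x : L, ∃ Q : Polynomial k, Q ≠ 0 ∧ Q.Splits ∧ aeval (ad k L x) Q = 0) : IsSolvable L :=
  solvable_aux t ht (finrank k L) L le_rfl h

end main

end Pool.Agent.N817.PL.Split
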