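import Pool.Agent.N817.PL.Lie

/-!
# The main argument for abstract groups
-/

set_option autoImplicit false
set_option linter.unusedSectionVars false

namespace Pool.Agent.N817.PL.Abs

open Pool.Agent.N817.PL.DD Pool.Agent.N817.PL.Nrm Filter Topology

section eig

attribute [local instance 100] LieRing.ofAssociativeRing

variable {Ω : Type*} [Field Ω] [CharZero Ω] [IsAlgClosed Ω] {n : ℕ}

theorem eigvec (hn : 0 < n) (L : LieSubalgebra Ω (Mat n Ω)) (hL : LieAlgebra.IsSolvable L) :
    ∃ w : Fin n → Ω, w ≠ 0 ∧ ∀ x ∈ L, ∃ a : Ω, x.mulVec w = a • w := by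
  have : Nonempty (Fin n) := ⟨⟨0, hn⟩⟩
  obtain ⟨χ, hχ⟩ := LieModule.exists_nontrivial_weightSpace_of_isSolvable Ω L (Fin n → Ω)
  obtain ⟨⟨w, hw⟩, hw0⟩ := exists_ne (0 : LieModule.weightSpace (Fin n → Ω) χ)
  refine ⟨w, fun h => hw0 (Subtype.ext h), fun x hx => ?_⟩
  rw [LieModule.mem_weightSpace] at hw
  exact ⟨χ ⟨x, hx⟩, hw ⟨x, hx⟩⟩

end eig

variable {p : ℕ} [hp : Fact p.Prime] {F : Type*} [NormedField F] [NormedAlgebra ℚ_[p] F]
  [CompleteSpace F] {n : ℕ} {G : Type*} [Group G]

attribute [local instance] nring nalg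

section

variable [IsUltrametricDist F]

/-- the matrices with eigenvector `w` -/
def S (w : Fin n → AlgebraicClosure F) : Subalgebra F (Mat n F) where
  carrier := {A | ∃ a : AlgebraicClosure F, ((algebraMap F (AlgebraicClosure F)).mapMatrix A).mulVec w = a • w}
  mul_mem' := by
    rintro A B ⟨a, ha⟩ ⟨b, hb⟩
    refine ⟨b * a, ?_⟩
    rw [map_mul, ← Matrix.mulVec_mulVec, hb, Matrix.mulVec_smul, ha, smul_smul]
  add_mem' := by
    rintro A B ⟨a, ha⟩ ⟨b, hb⟩
    refine ⟨a + b, ?_⟩
    rw [map_add, Matrix.add_mulVec, ha, hb, add_smul]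
  algebraMap_mem' := by
    intro c
    refine ⟨algebraMap F (AlgebraicClosure F) c, ?_⟩
    have h1 : (algebraMap F (AlgebraicClosure F)).mapMatrix (algebraMap F (Mat n F) c) =
        (algebraMap F (AlgebraicClosure F) c) • (1 : Mat n (AlgebraicClosure F)) := by
      ext i j
      by_cases h : i = j
      · subst h
        simp [Matrix.algebraMap_matrix_apply]
      · simp [Matrix.algebraMap_matrix_apply, h]
    rw [h1, Matrix.smul_mulVec, Matrix.one_mulVec]

end

theorem isClosed_sub (p : ℕ) [hp : Fact p.Prime] {F : Type*} [NormedField F]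
    [NormedAlgebra ℚ_[p] F] [CompleteSpace F] [IsUltrametricDist F] {n : ℕ}
    (S : Submodule F (Mat n F)) : IsClosed (S : Set (Mat n F)) := by
  let inst : NontriviallyNormedField F :=
    { (inferInstance : NormedField F) with
      non_trivial := by
        refine ⟨algebraMap ℚ_[p] F ((p : ℚ_[p])⁻¹), ?_⟩
        rw [norm_algebraMap', norm_inv, Padic.norm_p, inv_inv]
        exact_mod_cast hp.out.one_lt }
  exact Submodule.closed_of_finiteDimensional S

section main

variable [IsUltrametricDist F]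

/-- extension of scalars for matrices -/
noncomputable def em (p : ℕ) [Fact p.Prime] (F : Type*) [NormedField F] [NormedAlgebra ℚ_[p] F]
    (n : ℕ) : Mat n F →ₐ[ℚ_[p]] Mat n (AlgebraicClosure F) :=
  (IsScalarTower.toAlgHom ℚ_[p] F (AlgebraicClosure F)).mapMatrix

theorem em_apply (A : Mat n F) : em p F n A = (algebraMap F (AlgebraicClosure F)).mapMatrix A := rfl

theorem em_smul (c : F) (A : Mat n F) :
    em p F n (c • A) = (algebraMap F (AlgebraicClosure F) c) • em p F n A := by
  ext i j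
  simp [em_apply]

theorem em_span (L : Submodule ℚ_[p] (Mat n F)) {X : Mat n F}
    (hX : X ∈ Submodule.span F (L : Set (Mat n F))) :
    em p F n X ∈ Submodule.span (AlgebraicClosure F)
      ((L.map (em p F n).toLinearMap : Submodule ℚ_[p] (Mat n (AlgebraicClosure F))) :
        Set (Mat n (AlgebraicClosure F))) := by
  induction hX using Submodule.span_induction with
  | mem x hx => exact Submodule.subset_span ⟨x, hx, rfl⟩
  | zero =>
    rw [map_zero]
    exact Submodule.zero_mem _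
  | add x y _ _ hx hy =>
    rw [map_add]
    exact Submodule.add_mem _ hx hy
  | smul c x _ hx =>
    rw [em_smul]
    exact Submodule.smul_mem _ _ hx

/-- **a common eigenvector of an open subgroup** -/
theorem common (p : ℕ) [hp : Fact p.Prime] {F : Type*} [NormedField F] [NormedAlgebra ℚ_[p] F]
    [CompleteSpace F] [IsUltrametricDist F] {n : ℕ} {G : Type*} [Group G]
    (hn : 0 < n) (r : G →* Mat n F) {C : ℝ} (hC : ∀ g, ‖r g‖ ≤ C) (U : Subgroup G)
    (hUn : ∀ g : G, ∀ v ∈ U, g * v * g⁻¹ ∈ U) (hsmall : ∀ u ∈ U, ‖r u - 1‖ ≤ 1 / 4) (g : G) {N K : ℕ}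
    (hN : 0 < N) (hK : 0 < K) (hgK : g ^ K ∈ U) (hiso : ∀ u ∈ U, DD (r (g * u) ^ N) = 0) :
    ∃ w : Fin n → AlgebraicClosure F, w ≠ 0 ∧ ∀ u ∈ U, ∃ a : AlgebraicClosure F,
      ((algebraMap F (AlgebraicClosure F)).mapMatrix (r u)).mulVec w = a • w := by
  have hcharF : CharZero F := charZero_of_injective_algebraMap (algebraMap ℚ_[p] F).injective
  have hcharΩ : CharZero (AlgebraicClosure F) :=
    charZero_of_injective_algebraMap (algebraMap F (AlgebraicClosure F)).injective
  -- the matrix of `g`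
  let M : (Mat n F)ˣ := ⟨r g, r g⁻¹, by rw [← map_mul, mul_inv_cancel, map_one],
    by rw [← map_mul, inv_mul_cancel, map_one]⟩
  have hM : (M : Mat n F) = r g := rfl
  have hMi : ((M⁻¹ : (Mat n F)ˣ) : Mat n F) = r g⁻¹ := rfl
  have h1 : DD ((M : Mat n F) ^ N) = 0 := by
    have := hiso 1 U.one_mem
    rwa [mul_one] at this
  have h2 := of_DD hn h1
  set c : F := (n : F)⁻¹ * ((M : Mat n F) ^ N).trace with hc
  have hc0 : c ≠ 0 := by
    intro h0
    rw [h0, zero_smul, sub_zero] at h2
    obtain ⟨m, hm⟩ := h2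
    have h3 : IsUnit (((M : Mat n F) ^ N) ^ m) := (M.isUnit.pow N).pow m
    rw [hm] at h3
    have : Nonempty (Fin n) := ⟨⟨0, hn⟩⟩
    exact not_isUnit_zero h3
  obtain ⟨s, μ, hμ, hsμ, hs, hMs⟩ := Interp.jordan M hN hc0 h2
  -- the elements `s * r u`
  have hD : ∀ u ∈ U, DD (((s : Mat n F) * r u) ^ N) = 0 := by
    intro u hu
    refine Interp.interp_DD hN hc0 hμ hsμ hs hK (r u) fun m => ?_
    rw [← hMs, hM]
    have h3 : r g ^ (1 + N * K * m) * r u = r (g * ((g ^ K) ^ (N * m) * u)) := by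
      rw [map_mul, map_mul, map_pow, map_pow, ← pow_mul, pow_add, pow_one, mul_assoc]
      congr 3
      ring
    rw [h3]
    exact hiso _ (U.mul_mem (U.pow_mem hgK _) hu)
  -- the Lie algebra
  set L : Submodule ℚ_[p] (Mat n F) := Lim.L p r U with hL
  have hLB : ∀ y ∈ L, DD (Lie.Bm (s : Mat n F) N y) = 0 := by
    rintro y ⟨u, hu, hy⟩
    refine Lie.limit_DD (p := p) hs y _ hy fun k => ?_
    rw [← Lim.back, add_sub_cancel]
    exact hD _ (hu k)
  have hLc : ∀ X ∈ Submodule.span F (L : Set (Mat n F)),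
      (s : Mat n F) * X * ((s⁻¹ : (Mat n F)ˣ) : Mat n F) ∈ Submodule.span F (L : Set (Mat n F)) := by
    refine Interp.interp_W hN hc0 hμ hsμ hs M hMs _ ?_
    intro X hX
    rw [hM, hMi]
    induction hX using Submodule.span_induction with
    | mem x hx => exact Submodule.subset_span (Lim.conj_mem g (hUn g) hx)
    | zero =>
      rw [mul_zero, zero_mul]
      exact Submodule.zero_mem _
    | add x y _ _ hx hy =>
      rw [mul_add, add_mul]
      exact Submodule.add_mem _ hx hy
    | smul a x _ hx =>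
      rw [mul_smul_comm, smul_mul_assoc]
      exact Submodule.smul_mem _ a hx
  -- extension of scalars
  set L' : Submodule ℚ_[p] (Mat n (AlgebraicClosure F)) := L.map (em p F n).toLinearMap with hL'
  have hL'lie : ∀ x ∈ L', ∀ y ∈ L', x * y - y * x ∈ L' := by
    rintro _ ⟨x, hx, rfl⟩ _ ⟨y, hy, rfl⟩
    refine ⟨x * y - y * x, Lim.lie_mem hC hx hy, ?_⟩
    change em p F n _ = em p F n x * em p F n y - em p F n y * em p F n x
    rw [map_sub, map_mul, map_mul]
  set s' : (Mat n (AlgebraicClosure F))ˣ := Units.map ((em p F n : Mat n F →ₐ[ℚ_[p]] _) : Mat n F →* _) s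
    with hs'
  have hs'v : (s' : Mat n (AlgebraicClosure F)) = em p F n (s : Mat n F) := rfl
  have hs'i : ((s'⁻¹ : (Mat n (AlgebraicClosure F))ˣ) : Mat n (AlgebraicClosure F)) =
    em p F n ((s⁻¹ : (Mat n F)ˣ) : Mat n F) := rfl
  have hsolv := Lie.solvable (Ω := AlgebraicClosure F) L' hL'lie s' hN
    (c := algebraMap F (AlgebraicClosure F) c) (by rwa [Ne, map_eq_zero]) (by
      rw [hs'v, ← map_pow, hs, em_smul, map_one]) (by
      rintro _ ⟨x, hx, rfl⟩
      rw [hs'v, hs'i]
      change em p F n _ * em p F n x * em p F n _ ∈ _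
      rw [← map_mul, ← map_mul]
      exact em_span L (hLc x (Submodule.subset_span hx))) (by
      rintro _ ⟨x, hx, rfl⟩
      have h3 := hLB x hx
      have h4 := map_DD (algebraMap F (AlgebraicClosure F)) (Lie.Bm (s : Mat n F) N x)
      rw [h3, map_zero, Lie.Bm_map] at h4
      exact h4.symm)
  obtain ⟨w, hw0, hw⟩ := eigvec hn _ hsolv
  refine ⟨w, hw0, fun u hu => ?_⟩
  have hcomp : @CompleteSpace (Mat n F) PseudoMetricSpace.toUniformSpace := complete
  have hult : IsUltrametricDist (Mat n F) := ultraMat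
  obtain ⟨ℓ, hℓ⟩ := Log.exists_log (p := p) (R := Mat n F) (x := r u - 1) (hsmall u hu)
  have hℓL : ℓ ∈ L := Lim.log_mem hu hℓ
  have hℓS : ℓ ∈ S w := by
    have h3 := hw (em p F n ℓ) (by
      rw [Lie.mem_LΩ]
      exact Submodule.subset_span ⟨ℓ, hℓL, rfl⟩)
    exact h3
  have h4 := Log.mem_of_log ((S w).restrictScalars ℚ_[p]) (isClosed_sub p (S w).toSubmodule)
    (hsmall u hu) hℓ hℓS
  have h5 : r u - 1 ∈ S w := h4
  have h6 : r u ∈ S w := by
    have := (S w).add_mem h5 (S w).one_mem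
    rwa [sub_add_cancel] at this
  exact h6

end main

end Pool.Agent.N817.PL.Abs
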