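import Pool.Agent.N817.PL.Abs

/-!
# Isoclinic matrices
-/

set_option autoImplicit false
set_option linter.unusedSectionVars false

namespace Pool.Agent.N817.PL.Iso

open Pool.Agent.N817.PL.DD Pool.Agent.N817.PL.Nrm Filter Topology Polynomial

section descend

variable {F : Type*} [Field F] {n : ℕ} {G : Type*} [Group G]

/-- the representation is irreducible -/
def Irr (r : G →* Mat n F) : Prop :=
  ∀ W : Submodule F (Fin n → F), (∀ g, ∀ x ∈ W, (r g).mulVec x ∈ W) → W = ⊥ ∨ W = ⊤

theorem commutes (r : G →* Mat n F) (U : Subgroup G)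
    (hUn : ∀ g : G, ∀ v ∈ U, g * v * g⁻¹ ∈ U) (hirr : Irr r) (w : Fin n → AlgebraicClosure F)
    (hw0 : w ≠ 0) (hw : ∀ u ∈ U, ∃ a : AlgebraicClosure F,
      ((algebraMap F (AlgebraicClosure F)).mapMatrix (r u)).mulVec w = a • w) (u : G) (hu : u ∈ U)
    (v : G) (hv : v ∈ U) : r u * r v = r v * r u := by
  let K₀ : Submodule F (Fin n → F) :=
    { carrier := {x | ∀ u ∈ U, ∀ v ∈ U, (r u * r v - r v * r u).mulVec x = 0}
      add_mem' := by
        intro x y hx hy u hu v hv
        rw [Matrix.mulVec_add, hx u hu v hv, hy u hu v hv, add_zero]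
      zero_mem' := by
        intro u _ v _
        exact Matrix.mulVec_zero _
      smul_mem' := by
        intro c x hx u hu v hv
        rw [Matrix.mulVec_smul, hx u hu v hv, smul_zero] }
  have hmem : ∀ x, x ∈ K₀ ↔ ∀ u ∈ U, ∀ v ∈ U, (r u * r v - r v * r u).mulVec x = 0 := fun x => Iff.rfl
  have hst : ∀ g, ∀ x ∈ K₀, (r g).mulVec x ∈ K₀ := by
    intro g x hx
    rw [hmem] at hx ⊢
    intro u hu v hv
    have h1 : ∀ a : G, r a * r g = r g * r (g⁻¹ * a * g) := by
      intro a
      rw [← map_mul, ← map_mul]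
      congr 1
      group
    have h2 : ∀ a ∈ U, g⁻¹ * a * g ∈ U := by
      intro a ha
      have := hUn g⁻¹ a ha
      rwa [inv_inv] at this
    have h3 : (r u * r v - r v * r u) * r g =
        r g * (r (g⁻¹ * u * g) * r (g⁻¹ * v * g) - r (g⁻¹ * v * g) * r (g⁻¹ * u * g)) := by
      have e1 : ∀ a b : G, r a * r b * r g = r g * (r (g⁻¹ * a * g) * r (g⁻¹ * b * g)) := by
        intro a b
        rw [mul_assoc, h1 b, ← mul_assoc (r a), h1 a, mul_assoc (r g)]
      rw [sub_mul, mul_sub, e1, e1]
    rw [Matrix.mulVec_mulVec, h3, ← Matrix.mulVec_mulVec, hx _ (h2 u hu) _ (h2 v hv),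
      Matrix.mulVec_zero]
  have hne : K₀ ≠ ⊥ := by
    obtain ⟨i, hi⟩ : ∃ i, w i ≠ 0 := by
      by_contra h
      push Not at h
      exact hw0 (funext h)
    obtain ⟨φ, hφ⟩ : ∃ φ : Module.Dual F (AlgebraicClosure F), φ (w i) ≠ 0 := by
      by_contra h
      push Not at h
      exact hi ((Module.forall_dual_apply_eq_zero_iff F (w i)).1 h)
    have h1 : (fun j => φ (w j)) ∈ K₀ := by
      rw [hmem]
      intro u hu v hv
      obtain ⟨a, ha⟩ := hw u hu
      obtain ⟨b, hb⟩ := hw v hv
      have h2 : ((algebraMap F (AlgebraicClosure F)).mapMatrix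
          (r u * r v - r v * r u)).mulVec w = 0 := by
        rw [map_sub, map_mul, map_mul, Matrix.sub_mulVec, ← Matrix.mulVec_mulVec,
          ← Matrix.mulVec_mulVec, ha, hb, Matrix.mulVec_smul, Matrix.mulVec_smul, ha, hb, smul_smul,
          smul_smul, mul_comm, sub_self]
      have h3 : ∀ A : Mat n F, A.mulVec (fun j => φ (w j)) =
          fun j => φ (((algebraMap F (AlgebraicClosure F)).mapMatrix A).mulVec w j) := by
        intro A
        ext j
        simp only [Matrix.mulVec, dotProduct, RingHom.mapMatrix_apply, Matrix.map_apply]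
        rw [map_sum]
        refine Finset.sum_congr rfl fun l _ => ?_
        rw [← Algebra.smul_def, map_smul, smul_eq_mul]
      rw [h3, h2]
      ext j
      simp
    intro h2
    rw [h2, Submodule.mem_bot] at h1
    exact hφ (congrFun h1 i)
  have htop : K₀ = ⊤ := (hirr K₀ hst).resolve_left hne
  have h1 : ∀ x, (r u * r v - r v * r u).mulVec x = 0 := by
    intro x
    have : x ∈ K₀ := by
      rw [htop]
      trivial
    exact (hmem x).1 this u hu v hv
  rw [← sub_eq_zero]
  ext i j
  have h2 := congrFun (h1 (Pi.single j 1)) i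
  rw [Matrix.mulVec_single_one] at h2
  exact h2

end descend

section iso

variable {F : Type*} [Field F] [CharZero F] {n : ℕ}

/-- all ratios of eigenvalues of `A` are roots of unity -/
def Isoclinic (A : Mat n F) : Prop :=
  ∀ a b : AlgebraicClosure F,
    (A.charpoly.map (algebraMap F (AlgebraicClosure F))).IsRoot a →
    (A.charpoly.map (algebraMap F (AlgebraicClosure F))).IsRoot b → ∃ m : ℕ, 0 < m ∧ a ^ m = b ^ m

theorem iso_pow (hn : 0 < n) {A : Mat n F} (hA : Isoclinic A) : ∃ m : ℕ, 0 < m ∧ DD (A ^ m) = 0 := by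
  classical
  have hcharΩ : CharZero (AlgebraicClosure F) :=
    charZero_of_injective_algebraMap (algebraMap F (AlgebraicClosure F)).injective
  set f := algebraMap F (AlgebraicClosure F) with hf
  set q := A.charpoly.map f with hq
  have hqm : q.Monic := A.charpoly_monic.map f
  have hqd : q.natDegree = n := by
    rw [hq, A.charpoly_monic.natDegree_map, Matrix.charpoly_natDegree_eq_dim, Fintype.card_fin]
  have hspl : q.Splits := IsAlgClosed.splits q
  obtain ⟨a, ha⟩ : ∃ a, q.IsRoot a := by
    apply IsAlgClosed.exists_root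
    intro h
    have h0 := natDegree_eq_zero_iff_degree_le_zero.2 h.le
    omega
  have h1 : ∀ b ∈ q.roots.toFinset, ∃ m : ℕ, 0 < m ∧ a ^ m = b ^ m := by
    intro b hb
    rw [Multiset.mem_toFinset, mem_roots hqm.ne_zero] at hb
    exact hA a b ha hb
  choose! e he using h1
  set m := ∏ b ∈ q.roots.toFinset, e b with hm
  have hm0 : 0 < m := Finset.prod_pos fun b hb => (he b hb).1
  have h2 : ∀ b ∈ q.roots, b ^ m = a ^ m := by
    intro b hb
    have hb' := Multiset.mem_toFinset.2 hb
    obtain ⟨t, ht⟩ := Finset.dvd_prod_of_mem e hb'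
    rw [hm, ht, pow_mul, pow_mul, (he b hb').2]
  refine ⟨m, hm0, ?_⟩
  -- over the algebraic closure
  set A' := f.mapMatrix A with hA'
  have hcp : A'.charpoly = q := by rw [hq, hA', RingHom.mapMatrix_apply, Matrix.charpoly_map]
  have h3 : q ∣ (X ^ m - C (a ^ m)) ^ n := by
    have h4 : q = (q.roots.map fun b => X - C b).prod := by
      have := hspl.eq_prod_roots
      rw [hqm.leadingCoeff, C_1, one_mul] at this
      exact this
    have h5 : Multiset.card q.roots = n := by rw [← hspl.natDegree_eq_card_roots, hqd]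
    rw [h4]
    have h6 : ∀ s : Multiset (AlgebraicClosure F), (∀ b ∈ s, b ^ m = a ^ m) →
        (s.map fun b => X - C b).prod ∣ (X ^ m - C (a ^ m)) ^ Multiset.card s := by
      intro s
      induction s using Multiset.induction_on with
      | empty => simp
      | cons b s ih =>
        intro hs
        rw [Multiset.map_cons, Multiset.prod_cons, Multiset.card_cons, pow_succ']
        refine mul_dvd_mul ?_ (ih fun b hb => hs b (Multiset.mem_cons_of_mem hb))
        rw [dvd_iff_isRoot]
        simp [hs b (Multiset.mem_cons_self b s)]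
    have h7 := h6 q.roots h2
    rwa [h5] at h7
  have h4 : (A' ^ m - (a ^ m) • (1 : Mat n (AlgebraicClosure F))) ^ n = 0 := by
    obtain ⟨t, ht⟩ := h3
    have h5 := congrArg (aeval A') ht
    rw [map_mul, ← hcp, Matrix.aeval_self_charpoly, zero_mul, map_pow, map_sub, map_pow, aeval_X,
      aeval_C, Algebra.algebraMap_eq_smul_one] at h5
    exact h5
  have h5 : DD (A' ^ m) = 0 := DD_eq_zero ⟨n, h4⟩
  have h6 : f.mapMatrix (DD (A ^ m)) = 0 := by
    rw [map_DD, map_pow]
    exact h5
  ext i j
  have h7 := congrFun (congrFun h6 i) j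
  simpa using h7

end iso

section uniform

variable {p : ℕ} [hp : Fact p.Prime] {F : Type*} [NormedField F] [NormedAlgebra ℚ_[p] F]
  [CompleteSpace F] {n : ℕ}

attribute [local instance] nring nalg

theorem uniform (p : ℕ) [hp : Fact p.Prime] {F : Type*} [NormedField F] [NormedAlgebra ℚ_[p] F]
    [CompleteSpace F] [IsUltrametricDist F] {n : ℕ} (hn : 0 < n) {A : Mat n F} {m N : ℕ}
    (hm : 0 < m) (h : DD (A ^ m) = 0) (hA : ‖A ^ N - 1‖ ≤ 1 / 4) : DD (A ^ N) = 0 := by
  have hcharF : CharZero F := charZero_of_injective_algebraMap (algebraMap ℚ_[p] F).injective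
  obtain ⟨c, hc⟩ := (DD_iff hn).1 h
  set T : Mat n F := (A ^ N) ^ m with hT
  have h1 : IsNilpotent (T - (c ^ N) • (1 : Mat n F)) := by
    have h2 := Interp.pow_sub_nilpotent (x := A ^ m) (y := c • (1 : Mat n F))
      ((Commute.one_right _).smul_right c) hc N
    rw [hT, ← pow_mul, mul_comm, pow_mul]
    rwa [_root_.smul_pow, one_pow] at h2
  have hcomp : @CompleteSpace (Mat n F) PseudoMetricSpace.toUniformSpace := complete
  have hult : IsUltrametricDist (Mat n F) := ultraMat
  have hcl : IsClosed (((Algebra.adjoin F {T}).restrictScalars ℚ_[p] :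
      Subalgebra ℚ_[p] (Mat n F)) : Set (Mat n F)) :=
    Abs.isClosed_sub p (Algebra.adjoin F {T}).toSubmodule
  have hTm : (1 + (A ^ N - 1)) ^ m ∈ ((Algebra.adjoin F {T}).restrictScalars ℚ_[p] :
      Subalgebra ℚ_[p] (Mat n F)) := by
    rw [add_sub_cancel]
    exact Algebra.subset_adjoin (R := F) (s := {T}) rfl
  have h3 := Log.mem_of_pow (p := p) (R := Mat n F) _ hcl (x := A ^ N - 1) hA hm hTm
  have h4 : A ^ N ∈ Algebra.adjoin F {T} := by
    have h5 : A ^ N - 1 ∈ Algebra.adjoin F {T} := h3
    have := (Algebra.adjoin F {T}).add_mem h5 (Algebra.adjoin F {T}).one_mem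
    rwa [sub_add_cancel] at this
  rw [Algebra.adjoin_singleton_eq_range_aeval] at h4
  obtain ⟨q, hq⟩ := h4
  obtain ⟨q', hq'⟩ : (X - C (c ^ N)) ∣ q - C (q.eval (c ^ N)) := by
    rw [dvd_iff_isRoot]
    simp
  rw [← hq]
  refine DD_eq_zero (c := q.eval (c ^ N)) ?_
  have h5 := congrArg (aeval T) hq'
  rw [map_sub, map_mul, map_sub, aeval_C, aeval_C, aeval_X, Algebra.algebraMap_eq_smul_one,
    Algebra.algebraMap_eq_smul_one] at h5
  change IsNilpotent (aeval T q - _)
  rw [h5]
  apply Commute.isNilpotent_mul_right _ h1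
  have h6 : Commute T (aeval T q') := by
    have := Algebra.commute_of_mem_adjoin_self (R := F) (a := T) (b := aeval T q')
      (aeval_mem_adjoin_singleton F T)
    exact this
  exact h6.sub_left ((Commute.one_left _).smul_left _)

end uniform

end Pool.Agent.N817.PL.Iso
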