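import Pool.Agent.N817.PL.Spl

/-!
# The adjoint representation
-/

set_option autoImplicit false
set_option linter.unusedSectionVars false
set_option linter.dupNamespace false

namespace Pool.Agent.N817.PL.Ad

open Pool.Agent.N817.PL.DD Pool.Agent.N817.PL.Nrm Pool.Agent.N817.PL.Abs
open Filter Topology Polynomial Matrix

section ring

variable {R S : Type*} [CommRing R] [CommRing S] {n : ℕ}

/-- the Kronecker product -/
def KK (A B : Mat n R) : Mat (n * n) R := fun i j =>
  A (finProdFinEquiv.symm i).1 (finProdFinEquiv.symm j).1 *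
    B (finProdFinEquiv.symm i).2 (finProdFinEquiv.symm j).2

/-- a matrix as a vector -/
def vecF (Y : Mat n R) : Fin (n * n) → R := fun i =>
  Y (finProdFinEquiv.symm i).1 (finProdFinEquiv.symm i).2

theorem vecF_inj : Function.Injective (vecF : Mat n R → _) := by
  intro Y Z h
  ext i j
  have := congrFun h (finProdFinEquiv (i, j))
  simpa [vecF] using this

theorem vecF_surj : Function.Surjective (vecF : Mat n R → _) := by
  intro w
  refine ⟨fun i j => w (finProdFinEquiv (i, j)), ?_⟩
  ext i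
  change w (finProdFinEquiv (finProdFinEquiv.symm i)) = w i
  rw [Equiv.apply_symm_apply]

theorem KK_mulVec (A B Y : Mat n R) : (KK A B).mulVec (vecF Y) = vecF (A * Y * Bᵀ) := by
  ext i
  rw [mulVec, dotProduct, ← finProdFinEquiv.sum_comp, Fintype.sum_prod_type]
  simp only [KK, vecF, Equiv.symm_apply_apply, mul_apply, transpose_apply, Finset.sum_mul]
  rw [Finset.sum_comm]
  refine Finset.sum_congr rfl fun j _ => Finset.sum_congr rfl fun l _ => ?_
  ring

theorem KK_mul (A B A' B' : Mat n R) : KK A B * KK A' B' = KK (A * A') (B * B') := by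
  ext i j
  rw [mul_apply, ← finProdFinEquiv.sum_comp, Fintype.sum_prod_type]
  simp only [KK, Equiv.symm_apply_apply, mul_apply, Finset.sum_mul, Finset.mul_sum]
  rw [Finset.sum_comm]
  refine Finset.sum_congr rfl fun k _ => Finset.sum_congr rfl fun l _ => ?_
  ring

theorem KK_one : KK (1 : Mat n R) 1 = 1 := by
  ext i j
  unfold KK
  by_cases h : i = j
  · subst h
    simp
  · rw [one_apply_ne h]
    by_cases h1 : (finProdFinEquiv.symm i).1 = (finProdFinEquiv.symm j).1
    · have h2 : (finProdFinEquiv.symm i).2 ≠ (finProdFinEquiv.symm j).2 := by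
        intro h2
        exact h (finProdFinEquiv.symm.injective (Prod.ext h1 h2))
      rw [one_apply_ne h2, mul_zero]
    · rw [one_apply_ne h1, zero_mul]

theorem KK_map (f : R →+* S) (A B : Mat n R) :
    f.mapMatrix (KK A B) = KK (f.mapMatrix A) (f.mapMatrix B) := by
  ext i j
  simp [KK]

theorem KK_sub_left (A A' B : Mat n R) : KK (A - A') B = KK A B - KK A' B := by
  ext i j
  simp [KK, sub_mul]

theorem KK_sub_right (A B B' : Mat n R) : KK A (B - B') = KK A B - KK A B' := by
  ext i j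
  simp [KK, mul_sub]

theorem KK_neg_right (A B : Mat n R) : KK A (-B) = -KK A B := by
  ext i j
  simp [KK]

theorem vecF_sub (A B : Mat n R) : vecF (A - B) = vecF A - vecF B := rfl

/-- the adjoint action of `X` -/
def adm (X : Mat n R) : Mat (n * n) R := KK X 1 - KK 1 Xᵀ

theorem adm_mulVec (X Y : Mat n R) : (adm X).mulVec (vecF Y) = vecF (X * Y - Y * X) := by
  rw [adm, sub_mulVec, KK_mulVec, KK_mulVec, transpose_one, transpose_transpose, mul_one, one_mul,
    vecF_sub]

/-- the adjoint representation -/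
def adr {G : Type*} [Group G] (r : G →* Mat n R) : G →* Mat (n * n) R where
  toFun g := KK (r g) (r g⁻¹)ᵀ
  map_one' := by rw [inv_one, map_one, transpose_one, KK_one]
  map_mul' g h := by rw [KK_mul, _root_.mul_inv_rev, map_mul, map_mul, transpose_mul]

theorem adr_apply {G : Type*} [Group G] (r : G →* Mat n R) (g : G) :
    adr r g = KK (r g) (r g⁻¹)ᵀ := rfl

end ring

section ratios

variable {p : ℕ} [hp : Fact p.Prime] {F : Type*} [NormedField F] [NormedAlgebra ℚ_[p] F] {n : ℕ}
  {G : Type*} [Group G]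

/-- all ratios of eigenvalues have a power in `ℚ_p` -/
def RatQ (p : ℕ) [Fact p.Prime] {F : Type*} [NormedField F] [NormedAlgebra ℚ_[p] F] {n : ℕ}
    (A : Mat n F) : Prop :=
  ∀ a b : AlgebraicClosure F, (A.charpoly.map (algebraMap F (AlgebraicClosure F))).IsRoot a →
    (A.charpoly.map (algebraMap F (AlgebraicClosure F))).IsRoot b →
    ∃ m : ℕ, 0 < m ∧ ∃ c : ℚ_[p],
      a ^ m = algebraMap F (AlgebraicClosure F) (algebraMap ℚ_[p] F c) * b ^ m

theorem QpRoot_adr (r : G →* Mat n F) (g : G) (h : RatQ p (r g)) : Spl.QpRoot p (adr r g) := by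
  set f := algebraMap F (AlgebraicClosure F) with hf
  intro x hx
  rw [← Matrix.charpoly_map] at hx
  obtain ⟨w, hw0, hw⟩ := Unif.exists_eigvec hx
  obtain ⟨Y, rfl⟩ := vecF_surj w
  set A := f.mapMatrix (r g) with hA
  set B := f.mapMatrix (r g⁻¹) with hB
  have hAB : A * B = 1 := by rw [hA, hB, ← map_mul, ← map_mul, mul_inv_cancel, map_one, map_one]
  have hBA : B * A = 1 := by rw [hA, hB, ← map_mul, ← map_mul, inv_mul_cancel, map_one, map_one]
  have hw' : (f.mapMatrix (adr r g)).mulVec (vecF Y) = x • vecF Y := hw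
  have hT : f.mapMatrix (r g⁻¹)ᵀ = Bᵀ := rfl
  rw [adr_apply, KK_map, hT, KK_mulVec, transpose_transpose, ← hA] at hw'
  have h1 : A * Y * B = x • Y := vecF_inj hw'
  have h2 : A * Y = x • (Y * A) := by
    rw [← smul_mul_assoc, ← h1, mul_assoc, hBA, mul_one]
  have hY0 : Y ≠ 0 := by
    rintro rfl
    exact hw0 rfl
  -- the space of solutions
  let E : Submodule (AlgebraicClosure F) (Mat n (AlgebraicClosure F)) :=
    { carrier := {Y | A * Y = x • (Y * A)}
      add_mem' := by
        intro Y Z hY hZ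
        rw [Set.mem_ofPred_eq] at hY hZ ⊢
        rw [mul_add, hY, hZ, add_mul, smul_add]
      zero_mem' := by
        rw [Set.mem_ofPred_eq, mul_zero, zero_mul, smul_zero]
      smul_mem' := by
        intro c Y hY
        rw [Set.mem_ofPred_eq] at hY ⊢
        rw [mul_smul_comm, hY, smul_mul_assoc, smul_comm] }
  have hE : ∀ Y, Y ∈ E ↔ A * Y = x • (Y * A) := fun Y => Iff.rfl
  let T : E →ₗ[AlgebraicClosure F] E :=
    { toFun := fun Y => ⟨A * Y, by
        rw [hE, (hE _).1 Y.2, mul_smul_comm, ← mul_assoc, (hE _).1 Y.2, smul_mul_assoc]⟩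
      map_add' := fun Y Z => Subtype.ext (mul_add _ _ _)
      map_smul' := fun c Y => Subtype.ext (mul_smul_comm _ _ _) }
  have hnt : Nontrivial E := ⟨⟨⟨Y, h2⟩, 0, fun h => hY0 (congrArg Subtype.val h)⟩⟩
  obtain ⟨a, ha⟩ := Module.End.exists_eigenvalue T
  obtain ⟨⟨Z, hZE⟩, hZ⟩ := ha.exists_hasEigenvector
  have hZ1 : A * Z = a • Z := congrArg Subtype.val hZ.apply_eq_smul
  have hZ0 : Z ≠ 0 := by
    intro h
    exact hZ.2 (Subtype.ext h)
  have hZ2 : A * Z = x • (Z * A) := hZE
  obtain ⟨i, j, hij⟩ : ∃ i j, Z i j ≠ 0 := by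
    by_contra hno
    push Not at hno
    exact hZ0 (Matrix.ext hno)
  have hx0 : x ≠ 0 := by
    rintro rfl
    rw [zero_smul] at hZ2
    apply hZ0
    calc Z = B * (A * Z) := by rw [← mul_assoc, hBA, one_mul]
      _ = 0 := by rw [hZ2, mul_zero]
  have hZ3 : Z * A = (x⁻¹ * a) • Z := by
    rw [mul_smul, ← hZ1, hZ2, smul_smul, inv_mul_cancel₀ hx0, one_smul]
  have hb0 : x⁻¹ * a ≠ 0 := by
    intro h
    rw [h, zero_smul] at hZ3
    apply hZ0
    calc Z = (Z * A) * B := by rw [mul_assoc, hAB, mul_one]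
      _ = 0 := by rw [hZ3, zero_mul]
  -- eigenvectors
  have hra : A.charpoly.IsRoot a := by
    refine Spl.root_of_eigvec (v := fun l => Z l j) (fun h => hij (congrFun h i)) ?_
    ext l
    have := congrFun (congrFun hZ1 l) j
    rw [mul_apply] at this
    exact this
  have hrb : A.charpoly.IsRoot (x⁻¹ * a) := by
    rw [← Matrix.charpoly_transpose]
    refine Spl.root_of_eigvec (v := fun l => Z i l) (fun h => hij (congrFun h j)) ?_
    ext l
    have := congrFun (congrFun hZ3 i) l
    rw [mul_apply] at this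
    change ∑ m, A m l * Z i m = (x⁻¹ * a) * Z i l
    exact Eq.trans (Finset.sum_congr rfl fun m _ => mul_comm _ _) this
  have e1 : A.charpoly = (r g).charpoly.map f := by
    rw [← Matrix.charpoly_map]
    rfl
  rw [e1] at hra hrb
  obtain ⟨m, hm, c, hc⟩ := h a (x⁻¹ * a) hra hrb
  refine ⟨m, hm, c, ?_⟩
  have h3 : a = x * (x⁻¹ * a) := by rw [← mul_assoc, mul_inv_cancel₀ hx0, one_mul]
  have h4 : a ^ m = x ^ m * (x⁻¹ * a) ^ m := by
    rw [← mul_pow, ← h3]
  rw [h4] at hc
  exact mul_right_cancel₀ (pow_ne_zero m hb0) hc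

end ratios

section limits

attribute [local instance] nring nalg

variable {p : ℕ} [hp : Fact p.Prime] {F : Type*} [NormedField F] [NormedAlgebra ℚ_[p] F]
  [IsUltrametricDist F] {n : ℕ} {G : Type*} [Group G]

theorem continuous_KK : Continuous fun x : Mat n F × Mat n F => KK x.1 x.2 := by
  refine continuous_matrix fun i j => ?_
  unfold KK
  exact (continuous_fst.matrix_elem _ _).mul (continuous_snd.matrix_elem _ _)

theorem tendsto_KK {ι : Type*} {l : Filter ι} {A B : ι → Mat n F} {A' B' : Mat n F}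
    (hA : Tendsto A l (𝓝 A')) (hB : Tendsto B l (𝓝 B')) :
    Tendsto (fun i => KK (A i) (B i)) l (𝓝 (KK A' B')) :=
  ((continuous_KK (F := F) (n := n)).tendsto (A', B')).comp (hA.prodMk_nhds hB)

theorem KK_smul_left (c : ℚ_[p]) (A B : Mat n F) : KK (c • A) B = c • KK A B := by
  ext i j
  simp [KK]

theorem KK_smul_right (c : ℚ_[p]) (A B : Mat n F) : KK A (c • B) = c • KK A B := by
  ext i j
  simp [KK]

theorem tendsto_transpose {ι : Type*} {l : Filter ι} {A : ι → Mat n F} {A' : Mat n F}
    (hA : Tendsto A l (𝓝 A')) : Tendsto (fun i => (A i)ᵀ) l (𝓝 A'ᵀ) :=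
  ((continuous_id.matrix_transpose (m := Fin n) (n := Fin n) (R := F)).tendsto A').comp hA

theorem adm_mem {r : G →* Mat n F} {C : ℝ} (hC : ∀ g, ‖r g‖ ≤ C) {U : Subgroup G} {X : Mat n F}
    (hX : X ∈ Lim.L p r U) : adm X ∈ Lim.L p (adr r) U := by
  obtain ⟨u, hu⟩ := hX
  refine ⟨u, hu.1, ?_⟩
  have h1 := tendsto_KK hu.2 (tendsto_transpose (hu.inv_one hC))
  have h2 := tendsto_KK (tendsto_const_nhds (x := (1 : Mat n F))) (tendsto_transpose (hu.neg hC).2)
  have h3 := h1.add h2
  rw [transpose_one, transpose_neg, KK_neg_right, ← sub_eq_add_neg] at h3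
  refine h3.congr fun k => ?_
  rw [KK_smul_left, KK_sub_left, transpose_smul, KK_smul_right, transpose_sub, KK_sub_right,
    transpose_one, KK_one, ← smul_add, adr_apply]
  congr 1
  abel

end limits

end Pool.Agent.N817.PL.Ad
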