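import Pool.Agent.N817.PL.Ad
import Pool.Agent.N817.PL.Split

/-!
# Solvability if the ratios of the eigenvalues are in `ℚ_p`
-/

set_option autoImplicit false
set_option linter.unusedSectionVars false
set_option linter.dupNamespace false

namespace Pool.Agent.N817.PL.AdSolv

open Pool.Agent.N817.PL.DD Pool.Agent.N817.PL.Nrm Pool.Agent.N817.PL.Abs Pool.Agent.N817.PL.Ad
open Pool.Agent.N817.PL.Abs3 Filter Topology Polynomial

attribute [local instance] nring nalg
attribute [local instance 100] LieRing.ofAssociativeRing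

theorem not_square (p : ℕ) [hp : Fact p.Prime] : ¬ IsSquare (p : ℚ_[p]) := by
  rintro ⟨x, hx⟩
  have hp0 : (p : ℚ_[p]) ≠ 0 := by exact_mod_cast hp.out.ne_zero
  have hx0 : x ≠ 0 := by
    rintro rfl
    rw [mul_zero] at hx
    exact hp0 hx
  have h1 := congrArg Padic.valuation hx
  rw [Padic.valuation_mul hx0 hx0, Padic.valuation_p] at h1
  omega

section

variable {p : ℕ} [hp : Fact p.Prime] {F : Type*} [NormedField F] [NormedAlgebra ℚ_[p] F]
  [IsUltrametricDist F] {n : ℕ} {G : Type*} [Group G]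

/-- the Lie algebra over `ℚ_p` -/
noncomputable def gL (r : G →* Mat n F) {C : ℝ} (hC : ∀ g, ‖r g‖ ≤ C) (U : Subgroup G) :
    LieSubalgebra ℚ_[p] (Mat n F) :=
  { Lim.L p r U with
    lie_mem' := fun hx hy => Lim.lie_mem hC hx hy }

theorem mem_gL {r : G →* Mat n F} {C : ℝ} {hC : ∀ g, ‖r g‖ ≤ C} {U : Subgroup G} {X : Mat n F} :
    X ∈ gL (p := p) r hC U ↔ X ∈ Lim.L p r U := Iff.rfl

theorem aeval_ad (L : LieSubalgebra ℚ_[p] (Mat n F)) (x y : L) (Q : Polynomial ℚ_[p]) :
    vecF (((aeval (LieAlgebra.ad ℚ_[p] L x) Q) y : L) : Mat n F) =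
      (aeval (adm (x : Mat n F)) Q).mulVec (vecF (y : Mat n F)) := by
  induction Q using Polynomial.induction_on' with
  | add P Q hP hQ =>
    rw [map_add, map_add, Matrix.add_mulVec, ← hP, ← hQ]
    rfl
  | monomial m c =>
    have h1 : ∀ m : ℕ, vecF ((((LieAlgebra.ad ℚ_[p] L x) ^ m) y : L) : Mat n F) =
        ((adm (x : Mat n F)) ^ m).mulVec (vecF (y : Mat n F)) := by
      intro m
      induction m with
      | zero =>
        rw [pow_zero, pow_zero, Matrix.one_mulVec]
        rfl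
      | succ m ih =>
        rw [pow_succ', Module.End.mul_apply, pow_succ', ← Matrix.mulVec_mulVec, ← ih, adm_mulVec]
        rfl
    rw [aeval_monomial, aeval_monomial, Module.End.mul_apply, Module.algebraMap_end_apply,
      ← Matrix.mulVec_mulVec, ← h1]
    have h2 : ∀ v : Fin (n * n) → F,
        ((algebraMap ℚ_[p] (Mat (n * n) F)) c).mulVec v = (algebraMap ℚ_[p] F c) • v := by
      intro v
      have h3 : (algebraMap ℚ_[p] (Mat (n * n) F)) c =
          (algebraMap ℚ_[p] F c) • (1 : Mat (n * n) F) := by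
        rw [algebraMap_smul, Algebra.algebraMap_eq_smul_one]
      rw [h3, Matrix.smul_mulVec, Matrix.one_mulVec]
    rw [h2]
    ext i
    simp only [vecF, Pi.smul_apply, algebraMap_smul]
    rfl

theorem gL_solvable [FiniteDimensional ℚ_[p] F] {r : G →* Mat n F} {C : ℝ}
    (hC : ∀ g, ‖r g‖ ≤ C) {U : Subgroup G}
    (hU : ∀ u ∈ U, ‖adr r u - 1‖ ≤ 1 / 4) (hQ : ∀ u ∈ U, Spl.QpRoot p (adr r u)) :
    LieAlgebra.IsSolvable (gL (p := p) r hC U) := by
  have hfd : FiniteDimensional ℚ_[p] (Mat n F) := Module.Finite.trans F (Mat n F)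
  refine Split.solvable_of_split (p : ℚ_[p]) (not_square p) (gL (p := p) r hC U) ?_
  intro x
  obtain ⟨R, a, -, ha⟩ := Spl.Spl_lim hU hQ (adm_mem hC x.2)
  refine ⟨∏ i, (X - Polynomial.C (a i)),
    (monic_prod_of_monic _ _ fun i _ => monic_X_sub_C _).ne_zero,
    Splits.prod fun i _ => Splits.X_sub_C _, ?_⟩
  have h1 : aeval (adm (x : Mat n F)) (∏ i, (X - Polynomial.C (a i))) = 0 := by
    have h2 := Matrix.aeval_self_charpoly (adm (x : Mat n F))
    have h3 : (∏ i, (X - Polynomial.C (algebraMap ℚ_[p] F (a i)))) =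
        (∏ i, (X - Polynomial.C (a i))).map (algebraMap ℚ_[p] F) := by
      rw [Polynomial.map_prod]
      simp
    rw [ha, h3, aeval_map_algebraMap] at h2
    exact h2
  refine LinearMap.ext fun y => Subtype.ext (vecF_inj ?_)
  rw [aeval_ad, h1, Matrix.zero_mulVec]
  rfl

theorem LL_solvable {r : G →* Mat n F} {C : ℝ} (hC : ∀ g, ‖r g‖ ≤ C) {U : Subgroup G}
    (hs : LieAlgebra.IsSolvable (gL (p := p) r hC U)) [CompleteSpace F] :
    LieAlgebra.IsSolvable (LL p r hC U) := by
  set L := gL (p := p) r hC U with hL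
  set M := LL p r hC U with hM
  have key : ∀ j : ℕ, ∀ x ∈ LieAlgebra.derivedSeries (AlgebraicClosure F) M j,
      (x : Mat n (AlgebraicClosure F)) ∈ Submodule.span (AlgebraicClosure F)
        ((fun y : L => em p F n (y : Mat n F)) '' (LieAlgebra.derivedSeries ℚ_[p] L j : Set L)) := by
    intro j
    induction j with
    | zero =>
      intro x _
      have h1 := mem_LL.1 x.2
      refine Submodule.span_mono ?_ h1
      rintro _ ⟨y, hy, rfl⟩
      refine ⟨⟨y, hy⟩, ?_, rfl⟩
      trivial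
    | succ j ih =>
      intro x hx
      have h1 : LieAlgebra.derivedSeries (AlgebraicClosure F) M (j + 1) =
          ⁅LieAlgebra.derivedSeries (AlgebraicClosure F) M j,
            LieAlgebra.derivedSeries (AlgebraicClosure F) M j⁆ :=
        LieAlgebra.derivedSeriesOfIdeal_succ (AlgebraicClosure F) M ⊤ j
      have h2 : LieAlgebra.derivedSeries ℚ_[p] L (j + 1) =
          ⁅LieAlgebra.derivedSeries ℚ_[p] L j, LieAlgebra.derivedSeries ℚ_[p] L j⁆ :=
        LieAlgebra.derivedSeriesOfIdeal_succ ℚ_[p] L ⊤ j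
      rw [h1, ← LieSubmodule.mem_toSubmodule, LieSubmodule.lieIdeal_oper_eq_linear_span'] at hx
      have h3 : Submodule.span (AlgebraicClosure F) {m : M |
          ∃ a ∈ LieAlgebra.derivedSeries (AlgebraicClosure F) M j,
            ∃ b ∈ LieAlgebra.derivedSeries (AlgebraicClosure F) M j, ⁅a, b⁆ = m} ≤
          (Submodule.span (AlgebraicClosure F) ((fun y : L => em p F n (y : Mat n F)) ''
            (LieAlgebra.derivedSeries ℚ_[p] L (j + 1) : Set L))).comap M.toSubmodule.subtype := by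
        rw [Submodule.span_le]
        rintro _ ⟨a, ha, b, hb, rfl⟩
        change (a : Mat n (AlgebraicClosure F)) * (b : Mat n (AlgebraicClosure F)) -
          (b : Mat n (AlgebraicClosure F)) * (a : Mat n (AlgebraicClosure F)) ∈
            Submodule.span (AlgebraicClosure F) ((fun y : L => em p F n (y : Mat n F)) ''
              (LieAlgebra.derivedSeries ℚ_[p] L (j + 1) : Set L))
        refine Abs2.lie_span' _ _ ?_ (ih a ha) (ih b hb)
        rintro _ ⟨y, hy, rfl⟩ _ ⟨z, hz, rfl⟩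
        simp only
        rw [← map_mul, ← map_mul, ← map_sub]
        refine Submodule.subset_span ⟨⁅y, z⁆, ?_, rfl⟩
        rw [h2]
        exact LieSubmodule.lie_mem_lie hy hz
      exact h3 hx
  obtain ⟨j, hj⟩ := LieAlgebra.IsSolvable.solvable ℚ_[p] L
  refine LieAlgebra.IsSolvable.mk (R := AlgebraicClosure F) (k := j) ?_
  rw [LieSubmodule.eq_bot_iff]
  intro x hx
  have h1 := key j x hx
  rw [hj] at h1
  have h2 : Submodule.span (AlgebraicClosure F) ((fun y : L => em p F n (y : Mat n F)) ''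
      ((⊥ : LieIdeal ℚ_[p] L) : Set L)) = ⊥ := by
    rw [Submodule.span_eq_bot]
    rintro _ ⟨y, hy, rfl⟩
    have hy' : y = 0 := hy
    rw [hy']
    exact map_zero _
  rw [h2, Submodule.mem_bot] at h1
  exact Subtype.ext h1

/-- **The image of `U` is commutative.** -/
theorem abelian [FiniteDimensional ℚ_[p] F] (r : G →* Mat n F) (hss : Ss r) {C : ℝ}
    (hC : ∀ g, ‖r g‖ ≤ C) (U : Subgroup G) (hUn : ∀ g : G, ∀ v ∈ U, g * v * g⁻¹ ∈ U)
    (hU : ∀ u ∈ U, ‖r u - 1‖ ≤ 1 / 4) (hU' : ∀ u ∈ U, ‖adr r u - 1‖ ≤ 1 / 4)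
    (hQ : ∀ u ∈ U, Spl.QpRoot p (adr r u)) (u : G) (hu : u ∈ U) (v : G) (hv : v ∈ U) :
    r u * r v = r v * r u := by
  have hcompF : CompleteSpace F := FiniteDimensional.complete ℚ_[p] F
  have hsolv := LL_solvable (p := p) hC (gL_solvable (p := p) hC hU' hQ)
  refine commutes2 r hss U hUn ?_ u hu v hv
  intro V hV hV0
  exact common2 (p := p) r hC U hU hsolv V hV hV0

end

end Pool.Agent.N817.PL.AdSolv
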