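import Mathlib

/-!
# Characters of finite order of a finitely generated multiplicative group
-/

set_option autoImplicit false
set_option linter.unusedSectionVars false

namespace Pool.Agent.N817.PL.Chi

theorem jac_int : IsJacobsonRing ℤ := by
  rw [isJacobsonRing_iff_prime_eq]
  intro P hP
  by_cases h : P = ⊥
  · subst h
    rw [eq_bot_iff]
    intro x hx
    rw [Ideal.mem_jacobson_bot] at hx
    have h1 := hx x
    rw [Int.isUnit_iff] at h1
    rw [Ideal.mem_bot]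
    rcases h1 with h1 | h1
    · have : x * x = 0 := by linarith
      exact mul_self_eq_zero.1 this
    · exfalso
      nlinarith [mul_self_nonneg x]
  · have : P.IsMaximal := IsPrime.to_maximal_ideal h
    exact Ideal.jacobson_eq_self_of_isMaximal

/-- residue fields of finitely generated commutative rings are finite -/
theorem residue_finite (S : Type*) [CommRing S] [alg : Algebra ℤ S] [Algebra.FiniteType ℤ S]
    (m : Ideal S) [hm : m.IsMaximal] : Finite (S ⧸ m) := by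
  obtain rfl : alg = Ring.toIntAlgebra S := Subsingleton.elim _ _
  let F : Field (S ⧸ m) := Ideal.Quotient.field m
  have h0 : Algebra.FiniteType ℤ (S ⧸ m) :=
    Algebra.FiniteType.of_surjective ((Ideal.Quotient.mkₐ S m).restrictScalars ℤ)
      Ideal.Quotient.mk_surjective
  have hJ : IsJacobsonRing ℤ := jac_int
  have h1 : Module.Finite ℤ (S ⧸ m) := finite_of_finite_type_of_isJacobsonRing ℤ (S ⧸ m)
  obtain ⟨p, hp⟩ := CharP.exists (S ⧸ m)
  rcases Nat.eq_zero_or_pos p with h2 | h2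
  · exfalso
    subst h2
    have hc : CharZero (S ⧸ m) := CharP.charP_to_charZero (S ⧸ m)
    have h3 : Function.Injective (algebraMap ℤ (S ⧸ m)) := by
      have : (algebraMap ℤ (S ⧸ m)) = Int.castRingHom (S ⧸ m) := RingHom.ext_int _ _
      rw [this]
      exact RingHom.injective_int _
    have hi : Algebra.IsIntegral ℤ (S ⧸ m) := Algebra.IsIntegral.of_finite ℤ (S ⧸ m)
    have h4 : IsField ℤ := isField_of_isIntegral_of_isField h3 (Field.toIsField _)
    exact Int.not_isField h4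
  · apply Module.finite_of_fg_torsion (S ⧸ m)
    intro x
    refine ⟨⟨(p : ℤ), ?_⟩, ?_⟩
    · rw [mem_nonZeroDivisors_iff_ne_zero]
      exact_mod_cast h2.ne'
    · change (p : ℤ) • x = 0
      rw [zsmul_eq_mul]
      simp

/-- an injective homomorphism from the units of a finite field to the units of an algebraically
closed field of characteristic zero -/
theorem exists_emb (k Ω : Type*) [Field k] [Finite k] [Field Ω] [CharZero Ω] [IsAlgClosed Ω] :
    ∃ θ : kˣ →* Ωˣ, Function.Injective θ := by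
  have hc : IsCyclic kˣ := inferInstance
  set N := Nat.card kˣ with hN
  have hN0 : NeZero N := ⟨Nat.card_pos.ne'⟩
  have hN1 : NeZero (N : Ω) := ⟨by exact_mod_cast hN0.ne⟩
  have hcard : Nat.card kˣ = Nat.card (rootsOfUnity N Ω) :=
    (HasEnoughRootsOfUnity.natCard_rootsOfUnity Ω N).symm
  have hcyc : IsCyclic (rootsOfUnity N Ω) := inferInstance
  let e : kˣ ≃* rootsOfUnity N Ω := mulEquivOfCyclicCardEq hcard
  exact ⟨(rootsOfUnity N Ω).subtype.comp e.toMonoidHom,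
    fun a b h => e.injective (Subtype.ext h)⟩

/-- **characters.** For a finite set `S` of nonzero elements there is a multiplicative function of
finite order which is not `1` at the elements of `S` different from `1`. -/
theorem exists_chi {Ω : Type*} [Field Ω] [CharZero Ω] [IsAlgClosed Ω] (S : Set Ω) (hS : S.Finite)
    (hS0 : (0 : Ω) ∉ S) : ∃ N : ℕ, 0 < N ∧ ∃ χ : Ω → Ω, (∀ x ∈ S, χ x ^ N = 1) ∧
      (∀ x ∈ S, χ x = 1 → x = 1) ∧ (∀ x ∈ S, ∀ y ∈ S, χ (x * y) = χ x * χ y) ∧ χ 1 = 1 := by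
  classical
  set T : Set Ω := S ∪ (fun x => x⁻¹) '' S ∪ (fun x => (x - 1)⁻¹) '' S with hT
  have hTf : T.Finite := (hS.union (hS.image _)).union (hS.image _)
  set B : Subalgebra ℤ Ω := Algebra.adjoin ℤ T with hB
  have hft : Algebra.FiniteType ℤ B :=
    (Subalgebra.fg_iff_finiteType B).1 (Subalgebra.fg_def.2 ⟨T, hTf, rfl⟩)
  obtain ⟨M, hM⟩ := Ideal.exists_maximal B
  let _ : Field (B ⧸ M) := Ideal.Quotient.field M
  have hfin : Finite (B ⧸ M) := residue_finite B M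
  obtain ⟨θ, hθ⟩ := exists_emb (B ⧸ M) Ω
  let q : B → B ⧸ M := Ideal.Quotient.mk M
  let χ : Ω → Ω := fun x => if h : ∃ hx : x ∈ B, q ⟨x, hx⟩ ≠ 0 then
    ((θ (Units.mk0 (q ⟨x, h.1⟩) h.2) : Ωˣ) : Ω) else 1
  have hχ : ∀ (x : Ω) (hx : x ∈ B) (h0 : q ⟨x, hx⟩ ≠ 0),
      χ x = ((θ (Units.mk0 (q ⟨x, hx⟩) h0) : Ωˣ) : Ω) := by
    intro x hx h0
    exact dif_pos ⟨hx, h0⟩
  have hSB : ∀ x ∈ S, x ∈ B := fun x hx => Algebra.subset_adjoin (Or.inl (Or.inl hx))
  have hSq : ∀ (x : Ω) (hx : x ∈ S), q ⟨x, hSB x hx⟩ ≠ 0 := by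
    intro x hx h0
    have hx0 : x ≠ 0 := fun h => hS0 (h ▸ hx)
    have h1 : x⁻¹ ∈ B := Algebra.subset_adjoin (Or.inl (Or.inr ⟨x, hx, rfl⟩))
    have h2 : (⟨x, hSB x hx⟩ : B) ∈ M := Ideal.Quotient.eq_zero_iff_mem.1 h0
    apply hM.ne_top
    rw [Ideal.eq_top_iff_one]
    have h3 : (1 : B) = (⟨x⁻¹, h1⟩ : B) * ⟨x, hSB x hx⟩ := by
      apply Subtype.ext
      change (1 : Ω) = x⁻¹ * x
      rw [inv_mul_cancel₀ hx0]
    rw [h3]
    exact M.mul_mem_left _ h2
  refine ⟨Nat.card (B ⧸ M)ˣ, Nat.card_pos, χ, ?_, ?_, ?_, ?_⟩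
  · intro x hx
    rw [hχ x (hSB x hx) (hSq x hx), ← Units.val_pow_eq_pow_val, ← map_pow, pow_card_eq_one', map_one,
      Units.val_one]
  · intro x hx h1
    rw [hχ x (hSB x hx) (hSq x hx), Units.val_eq_one, ← map_one θ] at h1
    have h2 := hθ h1
    have h3 : q ⟨x, hSB x hx⟩ = 1 := congrArg Units.val h2
    by_contra hx1
    have h4 : (x - 1)⁻¹ ∈ B := Algebra.subset_adjoin (Or.inr ⟨x, hx, rfl⟩)
    have h5 : (⟨x, hSB x hx⟩ : B) - 1 ∈ M := by
      rw [← Ideal.Quotient.eq_zero_iff_mem, map_sub, map_one, sub_eq_zero]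
      exact h3
    apply hM.ne_top
    rw [Ideal.eq_top_iff_one]
    have h6 : (1 : B) = (⟨(x - 1)⁻¹, h4⟩ : B) * ((⟨x, hSB x hx⟩ : B) - 1) := by
      apply Subtype.ext
      change (1 : Ω) = (x - 1)⁻¹ * (x - 1)
      rw [inv_mul_cancel₀ (sub_ne_zero.2 hx1)]
    rw [h6]
    exact M.mul_mem_left _ h5
  · intro x hx y hy
    have h1 : x * y ∈ B := B.mul_mem (hSB x hx) (hSB y hy)
    have h2 : q ⟨x * y, h1⟩ = q ⟨x, hSB x hx⟩ * q ⟨y, hSB y hy⟩ := by
      rw [← map_mul]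
      rfl
    have h3 : q ⟨x * y, h1⟩ ≠ 0 := by
      rw [h2]
      exact mul_ne_zero (hSq x hx) (hSq y hy)
    rw [hχ _ h1 h3, hχ x (hSB x hx) (hSq x hx), hχ y (hSB y hy) (hSq y hy), ← Units.val_mul,
      ← map_mul]
    congr 2
    apply Units.ext
    exact h2
  · have h1 : (1 : Ω) ∈ B := B.one_mem
    have h2 : q ⟨1, h1⟩ = 1 := map_one (Ideal.Quotient.mk M)
    have h3 : q ⟨1, h1⟩ ≠ 0 := by
      rw [h2]
      exact one_ne_zero
    rw [hχ 1 h1 h3]
    have h4 : Units.mk0 (q ⟨1, h1⟩) h3 = 1 := Units.ext h2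
    rw [h4, map_one, Units.val_one]

end Pool.Agent.N817.PL.Chi
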