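import Mathlib

/-!
# Fixed points of automorphisms of finite order (after Kreknin)
-/

set_option autoImplicit false

namespace Pool.Agent.N817.PL.Krek

open LieAlgebra

section krek
variable {k D : Type*} [Field k] [LieRing D] [LieAlgebra k D] {N : ℕ} [NeZero N]

/-- the subalgebra generated by the homogeneous elements of degree at least `j` -/
def BB (π : ZMod N → D →ₗ[k] D) (j : ℕ) : LieSubalgebra k D :=
  LieSubalgebra.lieSpan k D {x | ∃ b : ZMod N, j ≤ b.val ∧ ∃ z, x = π b z}

/-- the sum of a subalgebra and an ideal -/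
def SI (B : LieSubalgebra k D) (R : LieIdeal k D) : LieSubalgebra k D where
  carrier := {x | ∃ y ∈ B, ∃ r ∈ R, x = y + r}
  add_mem' := by
    rintro _ _ ⟨y, hy, r, hr, rfl⟩ ⟨y', hy', r', hr', rfl⟩
    exact ⟨y + y', B.add_mem hy hy', r + r', R.add_mem hr hr', by abel⟩
  zero_mem' := ⟨0, B.zero_mem, 0, R.zero_mem, by simp⟩
  smul_mem' := by
    rintro c _ ⟨y, hy, r, hr, rfl⟩
    exact ⟨c • y, B.smul_mem c hy, c • r, R.smul_mem c hr, smul_add c y r⟩
  lie_mem' := by
    rintro _ _ ⟨y, hy, r, hr, rfl⟩ ⟨y', hy', r', hr', rfl⟩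
    refine ⟨⁅y, y'⁆, B.lie_mem hy hy', ⁅y, r'⁆ + ⁅r, y' + r'⁆, ?_, ?_⟩
    · exact R.add_mem (lie_mem_right k D R y r' hr') (lie_mem_left k D R r (y' + r') hr)
    · rw [add_lie, lie_add, add_assoc]

theorem krek (π : ZMod N → D →ₗ[k] D) (R : LieIdeal k D)
    (h1 : ∀ x, ∑ i, π i x = x)
    (h2 : ∀ i b z u, π i ⁅z, π b u⁆ = ⁅π (i - b) z, π b u⁆)
    (h3 : ∀ x, π 0 x ∈ R) (hR : ∀ i, ∀ x ∈ R, π i x ∈ R)
    (h4 : ∀ x : D, x ∈ Submodule.span k {z | ∃ a b : D, z = ⁅a, b⁆}) : R = ⊤ := by
  have key : ∀ j ≤ N, SI (BB π j) R = ⊤ := by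
    intro j
    induction j with
    | zero =>
      intro _
      rw [eq_top_iff]
      rintro x -
      refine ⟨x, ?_, 0, R.zero_mem, (add_zero x).symm⟩
      rw [← h1 x]
      exact Submodule.sum_mem (BB π 0).toSubmodule fun i _ =>
        LieSubalgebra.subset_lieSpan ⟨i, Nat.zero_le _, x, rfl⟩
    | succ j ih =>
      intro hj
      have ihj := ih (by omega)
      set W := SI (BB π (j + 1)) R with hW
      have hRW : ∀ x ∈ R, x ∈ W := fun x hx => ⟨0, LieSubalgebra.zero_mem _, x, hx, (zero_add x).symm⟩
      have hBW : ∀ x ∈ BB π (j + 1), x ∈ W := fun x hx => ⟨x, hx, 0, R.zero_mem, (add_zero x).symm⟩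
      have hκ : ((j : ZMod N)).val = j := ZMod.val_natCast_of_lt (by omega)
      -- the set of all good elements
      let T : LieSubalgebra k D :=
        { carrier := {x | ∀ z : D, π (j : ZMod N) ⁅z, x⁆ ∈ W}
          add_mem' := by
            intro x y hx hy z
            rw [lie_add, map_add]
            exact W.add_mem (hx z) (hy z)
          zero_mem' := by
            intro z
            rw [lie_zero, map_zero]
            exact W.zero_mem
          smul_mem' := by
            intro c x hx z
            rw [lie_smul, map_smul]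
            exact W.smul_mem c (hx z)
          lie_mem' := by
            intro x y hx hy z
            have h5 : ⁅z, ⁅x, y⁆⁆ = ⁅⁅z, x⁆, y⁆ - ⁅⁅z, y⁆, x⁆ := by
              rw [leibniz_lie, ← lie_skew x ⁅z, y⁆, sub_eq_add_neg]
            rw [h5, map_sub]
            exact W.sub_mem (hy _) (hx _) }
      have hgen : BB π j ≤ T := by
        rw [BB, LieSubalgebra.lieSpan_le]
        rintro _ ⟨b, hb, u, rfl⟩ z
        rw [h2]
        by_cases hbj : b = (j : ZMod N)
        · rw [hbj, sub_self]
          exact hRW _ (lie_mem_left k D R _ _ (h3 z))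
        · have hlt : j < b.val := by
            rcases Nat.lt_or_ge j b.val with h | h
            · exact h
            · exfalso
              apply hbj
              have h5 : b.val = j := le_antisymm h hb
              rw [← h5, ZMod.natCast_zmod_val]
          apply hBW
          apply LieSubalgebra.lie_mem
          · refine LieSubalgebra.subset_lieSpan ⟨_, ?_, z, rfl⟩
            have h6 : ((j : ZMod N) - b + b).val = j := by rw [sub_add_cancel, hκ]
            rw [ZMod.val_add] at h6
            have h7 := ZMod.val_lt b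
            have h8 := ZMod.val_lt ((j : ZMod N) - b)
            by_contra h9
            push Not at h9
            rcases Nat.lt_or_ge (((j : ZMod N) - b).val + b.val) N with h10 | h10
            · rw [Nat.mod_eq_of_lt h10] at h6
              omega
            · have h11 : (((j : ZMod N) - b).val + b.val) % N = ((j : ZMod N) - b).val + b.val - N := by
                rw [Nat.mod_eq_sub_mod h10, Nat.mod_eq_of_lt (by omega)]
              omega
          · exact LieSubalgebra.subset_lieSpan ⟨b, hlt, u, rfl⟩
      have hRT : ∀ x ∈ R, x ∈ T := fun x hx z => hRW _ (hR _ _ (lie_mem_right k D R z x hx))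
      have hT : ∀ x, x ∈ T := by
        intro x
        have h5 : x ∈ SI (BB π j) R := by
          rw [ihj]
          trivial
        obtain ⟨y, hy, r, hr, rfl⟩ := h5
        exact T.add_mem (hgen hy) (hRT r hr)
      have hπ : ∀ x, π (j : ZMod N) x ∈ W := by
        intro x
        have h5 := h4 x
        induction h5 using Submodule.span_induction with
        | mem x hx =>
          obtain ⟨a, b, rfl⟩ := hx
          exact hT b a
        | zero =>
          rw [map_zero]
          exact W.zero_mem
        | add x y _ _ hx hy =>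
          rw [map_add]
          exact W.add_mem hx hy
        | smul c x _ hx =>
          rw [map_smul]
          exact W.smul_mem c hx
      have hBj : BB π j ≤ W := by
        rw [BB, LieSubalgebra.lieSpan_le]
        rintro _ ⟨b, hb, u, rfl⟩
        rcases Nat.lt_or_ge j b.val with h | h
        · exact hBW _ (LieSubalgebra.subset_lieSpan ⟨b, h, u, rfl⟩)
        · have h5 : b.val = j := le_antisymm h hb
          have h6 : b = (j : ZMod N) := by rw [← h5, ZMod.natCast_zmod_val]
          rw [h6]
          exact hπ u
      rw [eq_top_iff]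
      rintro x -
      have h5 : x ∈ SI (BB π j) R := by
        rw [ihj]
        trivial
      obtain ⟨y, hy, r, hr, rfl⟩ := h5
      exact W.add_mem (hBj hy) (hRW r hr)
  have h5 := key N le_rfl
  rw [eq_top_iff]
  rintro x -
  have h6 : x ∈ SI (BB π N) R := by
    rw [h5]
    trivial
  obtain ⟨y, hy, r, hr, rfl⟩ := h6
  have h7 : BB π N = ⊥ := by
    rw [eq_bot_iff, BB, LieSubalgebra.lieSpan_le]
    rintro _ ⟨b, hb, -⟩
    exact absurd (ZMod.val_lt b) (by omega)
  rw [h7, LieSubalgebra.mem_bot] at hy
  rw [hy, zero_add]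
  exact hr

end krek

end Pool.Agent.N817.PL.Krek
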