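import Mathlib

/-!
# The p-adic logarithm as a limit, and closed subalgebras
-/

set_option autoImplicit false
set_option linter.unusedSectionVars false

namespace Pool.Agent.N817.PL.Log

open Filter Topology Finset

variable {p : ℕ} [hp : Fact p.Prime] {R : Type*} [NormedRing R] [IsUltrametricDist R]
  [NormedAlgebra ℚ_[p] R]

/-- `(1 + x) ^ (p ^ k) - 1` divided by `p ^ k` -/
noncomputable def f (p : ℕ) [Fact p.Prime] {R : Type*} [NormedRing R] [NormedAlgebra ℚ_[p] R]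
    (k : ℕ) (x : R) : R :=
  ((p : ℚ_[p])⁻¹) ^ k • ((1 + x) ^ p ^ k - 1)

/-- the difference of `x` and `f k x` -/
noncomputable def φ (p : ℕ) [Fact p.Prime] {R : Type*} [NormedRing R] [NormedAlgebra ℚ_[p] R]
    (k : ℕ) (x : R) : R := x - f p k x

theorem norm_sub_max (a b : R) : ‖a - b‖ ≤ max ‖a‖ ‖b‖ := by
  rw [sub_eq_add_neg, ← norm_neg b]
  exact IsUltrametricDist.norm_add_le_max _ _

theorem norm_ge (j : ℕ) (hj : 0 < j) : 1 / (j : ℝ) ≤ ‖(j : ℚ_[p])‖ := by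
  have hj0 : (j : ℤ) ≠ 0 := by exact_mod_cast hj.ne'
  have hjR : (0 : ℝ) < j := by exact_mod_cast hj
  rw [div_le_iff₀ hjR]
  have h1 : ‖(j : ℚ_[p])‖ = (p : ℝ) ^ (-(padicValNat p j : ℤ)) := by
    have := Padic.norm_eq_zpow_neg_valuation (p := p) (x := (j : ℚ_[p]))
      (by exact_mod_cast hj.ne')
    rw [this, Padic.valuation_natCast]
  have h2 : p ^ padicValNat p j ≤ j := Nat.le_of_dvd hj pow_padicValNat_dvd
  have hp0 : (0 : ℝ) < p := by exact_mod_cast hp.out.pos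
  rw [h1, zpow_neg, zpow_natCast, inv_mul_eq_div, le_div_iff₀ (pow_pos hp0 _), one_mul]
  exact_mod_cast h2

theorem coef (k j : ℕ) (hj : 0 < j) :
    ‖((p : ℚ_[p])⁻¹) ^ k * ((p ^ k).choose j : ℚ_[p])‖ ≤ j := by
  obtain ⟨i, rfl⟩ : ∃ i, j = i + 1 := ⟨j - 1, by omega⟩
  have hp0 : (0 : ℝ) < p := by exact_mod_cast hp.out.pos
  have hpk : 0 < p ^ k := pow_pos hp.out.pos k
  obtain ⟨m, hm⟩ : ∃ m, p ^ k = m + 1 := ⟨p ^ k - 1, by omega⟩
  have h1 := Nat.add_one_mul_choose_eq m i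
  rw [← hm] at h1
  have h2 : (p : ℚ_[p]) ^ k * (m.choose i : ℚ_[p]) =
      ((p ^ k).choose (i + 1) : ℚ_[p]) * ((i + 1 : ℕ) : ℚ_[p]) := by exact_mod_cast h1
  have h3 : (p : ℚ_[p]) ≠ 0 := by exact_mod_cast hp.out.ne_zero
  have h4 : ((i + 1 : ℕ) : ℚ_[p]) ≠ 0 := by exact_mod_cast Nat.succ_ne_zero i
  have h5 : ((p : ℚ_[p])⁻¹) ^ k * ((p ^ k).choose (i + 1) : ℚ_[p]) =
      (m.choose i : ℚ_[p]) / ((i + 1 : ℕ) : ℚ_[p]) := by
    rw [eq_div_iff h4, mul_assoc, ← h2, ← mul_assoc, ← mul_pow, inv_mul_cancel₀ h3, one_pow, one_mul]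
  rw [h5, norm_div]
  have h6 := norm_ge (p := p) (i + 1) (Nat.succ_pos i)
  have h7 : ‖(m.choose i : ℚ_[p])‖ ≤ 1 := by
    have := Padic.norm_int_le_one (p := p) (m.choose i : ℤ)
    simpa using this
  have hi : (0 : ℝ) < ((i + 1 : ℕ) : ℝ) := by exact_mod_cast Nat.succ_pos i
  rw [div_le_iff₀ (lt_of_lt_of_le (by positivity) h6)]
  rw [div_le_iff₀ hi] at h6
  linarith

theorem pow_norm {ρ : ℝ} {x : R} (hx : ‖x‖ ≤ ρ) (j : ℕ) : ‖x ^ (j + 1)‖ ≤ ρ ^ (j + 1) :=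
  (norm_pow_le' x (Nat.succ_pos j)).trans (pow_le_pow_left₀ (norm_nonneg x) hx _)

theorem pow_sub {ρ : ℝ} {x y : R} (hx : ‖x‖ ≤ ρ) (hy : ‖y‖ ≤ ρ) (j : ℕ) :
    ‖x ^ (j + 1) - y ^ (j + 1)‖ ≤ ρ ^ j * ‖x - y‖ := by
  have hρ : 0 ≤ ρ := (norm_nonneg x).trans hx
  induction j with
  | zero => simp
  | succ j ih =>
    have h1 : x ^ (j + 1 + 1) - y ^ (j + 1 + 1) =
        x ^ (j + 1) * (x - y) + (x ^ (j + 1) - y ^ (j + 1)) * y := by
      rw [pow_succ x (j + 1), pow_succ y (j + 1), mul_sub, sub_mul]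
      abel
    rw [h1]
    refine (IsUltrametricDist.norm_add_le_max _ _).trans (max_le ?_ ?_)
    · refine (norm_mul_le _ _).trans ?_
      exact mul_le_mul_of_nonneg_right (pow_norm hx j) (norm_nonneg _)
    · refine (norm_mul_le _ _).trans ?_
      calc ‖x ^ (j + 1) - y ^ (j + 1)‖ * ‖y‖ ≤ (ρ ^ j * ‖x - y‖) * ρ :=
            mul_le_mul ih hy (norm_nonneg _) (by positivity)
        _ = ρ ^ (j + 1) * ‖x - y‖ := by ring

theorem jbound (i : ℕ) : ((i : ℝ) + 2) * (1 / 4) ^ i ≤ 2 := by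
  induction i with
  | zero => norm_num
  | succ i ih =>
    have h1 : (0 : ℝ) ≤ (1 / 4) ^ i := by positivity
    have h2 : (((i + 1 : ℕ) : ℝ) + 2) * (1 / 4) ^ (i + 1) ≤ ((i : ℝ) + 2) * (1 / 4) ^ i := by
      rw [pow_succ]
      push_cast
      have h3 : (0 : ℝ) ≤ i := Nat.cast_nonneg i
      nlinarith
    exact h2.trans ih

theorem f_eq (k : ℕ) (x : R) : f p k x =
    ∑ j ∈ range (p ^ k), (((p : ℚ_[p])⁻¹) ^ k * ((p ^ k).choose (j + 1) : ℚ_[p])) • x ^ (j + 1) := by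
  unfold f
  have h1 : (1 + x) ^ p ^ k - 1 =
      ∑ j ∈ range (p ^ k), ((p ^ k).choose (j + 1) : ℚ_[p]) • x ^ (j + 1) := by
    rw [add_comm, (Commute.one_right x).add_pow, sum_range_succ']
    simp only [one_pow, mul_one, pow_zero, Nat.choose_zero_right, Nat.cast_one, add_sub_cancel_right]
    refine sum_congr rfl fun j _ => ?_
    rw [Algebra.smul_def, map_natCast, (Nat.cast_commute _ _).eq]
  rw [h1, smul_sum]
  refine sum_congr rfl fun j _ => ?_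
  rw [smul_smul]

theorem phi_eq (k : ℕ) (x : R) : φ p k x =
    - ∑ j ∈ range (p ^ k - 1), (((p : ℚ_[p])⁻¹) ^ k * ((p ^ k).choose (j + 2) : ℚ_[p])) •
      x ^ (j + 2) := by
  have hpk : 0 < p ^ k := pow_pos hp.out.pos k
  have h3 : (p : ℚ_[p]) ≠ 0 := by exact_mod_cast hp.out.ne_zero
  obtain ⟨m, hm⟩ : ∃ m, p ^ k = m + 1 := ⟨p ^ k - 1, by omega⟩
  unfold φ
  rw [f_eq]
  have h1 : p ^ k - 1 = m := by omega
  rw [h1]
  conv_lhs => rw [show range (p ^ k) = range (m + 1) by rw [hm]]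
  rw [sum_range_succ']
  have h4 : (((p : ℚ_[p])⁻¹) ^ k * ((p ^ k).choose (0 + 1) : ℚ_[p])) = 1 := by
    rw [zero_add, Nat.choose_one_right]
    push_cast
    rw [← mul_pow, inv_mul_cancel₀ h3, one_pow]
  rw [h4, one_smul, zero_add, pow_one]
  abel

theorem phi_lip {ρ : ℝ} (hρ : ρ ≤ 1 / 4) {x y : R} (hx : ‖x‖ ≤ ρ) (hy : ‖y‖ ≤ ρ) (k : ℕ) :
    ‖φ p k x - φ p k y‖ ≤ 2 * ρ * ‖x - y‖ := by
  have hρ0 : 0 ≤ ρ := (norm_nonneg x).trans hx
  rw [phi_eq, phi_eq, neg_sub_neg, ← sum_sub_distrib]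
  apply IsUltrametricDist.norm_sum_le_of_forall_le_of_nonneg (by positivity)
  intro j _
  rw [← smul_sub, norm_smul, norm_sub_rev]
  have h1 := coef (p := p) k (j + 2) (by omega)
  have h2 := pow_sub hx hy (j + 1)
  have h3 : ((j : ℝ) + 2) * ρ ^ j ≤ 2 := by
    refine le_trans ?_ (jbound j)
    exact mul_le_mul_of_nonneg_left (pow_le_pow_left₀ hρ0 hρ j) (by positivity)
  calc _ ≤ (((j + 2 : ℕ) : ℝ)) * (ρ ^ (j + 1) * ‖x - y‖) :=
        mul_le_mul h1 h2 (norm_nonneg _) (by positivity)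
    _ = (((j : ℝ) + 2) * ρ ^ j) * (ρ * ‖x - y‖) := by
        push_cast
        ring
    _ ≤ 2 * (ρ * ‖x - y‖) := mul_le_mul_of_nonneg_right h3 (by positivity)
    _ = 2 * ρ * ‖x - y‖ := by ring

theorem phi_zero (k : ℕ) : φ p k (0 : R) = 0 := by
  unfold φ f
  simp

theorem phi_norm {x : R} (hx : ‖x‖ ≤ 1 / 4) (k : ℕ) : ‖φ p k x‖ ≤ 2 * ‖x‖ ^ 2 := by
  have h1 := phi_lip (p := p) hx le_rfl (y := (0 : R)) (by rw [norm_zero]; exact norm_nonneg x) k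
  rw [phi_zero, sub_zero, sub_zero] at h1
  calc _ ≤ _ := h1
    _ = _ := by ring

theorem f_norm {x : R} (hx : ‖x‖ ≤ 1 / 4) (k : ℕ) : ‖f p k x‖ ≤ ‖x‖ := by
  have h1 : f p k x = x - φ p k x := by
    unfold φ
    abel
  rw [h1]
  refine (norm_sub_max _ _).trans (max_le le_rfl ?_)
  refine (phi_norm hx k).trans ?_
  nlinarith [norm_nonneg x]

theorem f_succ (k : ℕ) (x : R) :
    f p (k + 1) x - f p k x = -(((p : ℚ_[p])⁻¹) ^ k • φ p 1 ((p : ℚ_[p]) ^ k • f p k x)) := by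
  have h3 : (p : ℚ_[p]) ≠ 0 := by exact_mod_cast hp.out.ne_zero
  have h1 : (p : ℚ_[p]) ^ k • f p k x = (1 + x) ^ p ^ k - 1 := by
    unfold f
    rw [smul_smul, ← mul_pow, mul_inv_cancel₀ h3, one_pow, one_smul]
  rw [h1]
  unfold φ f
  rw [add_sub_cancel, pow_one, pow_one, ← pow_mul, ← pow_succ p k,
    smul_sub (((p : ℚ_[p])⁻¹) ^ k) ((1 + x) ^ p ^ k - 1), neg_sub, smul_smul, ← pow_succ]

theorem pow_quad {b : R} (hb : ‖b‖ ≤ 1) (m : ℕ) :
    ‖(1 + b) ^ m - 1 - (m : ℚ_[p]) • b‖ ≤ ‖b‖ ^ 2 := by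
  induction m with
  | zero =>
    simp
  | succ m ih =>
    have h1 : (1 + b) ^ (m + 1) - 1 - ((m + 1 : ℕ) : ℚ_[p]) • b =
        ((1 + b) ^ m - 1 - (m : ℚ_[p]) • b) + (((1 + b) ^ m - 1 - (m : ℚ_[p]) • b) * b +
          (m : ℚ_[p]) • b ^ 2) := by
      rw [pow_succ, Nat.cast_add, Nat.cast_one, add_smul, one_smul, sub_mul, sub_mul, one_mul,
        mul_add, mul_one, smul_mul_assoc, ← pow_two]
      abel
    rw [h1]
    refine (IsUltrametricDist.norm_add_le_max _ _).trans (max_le ih ?_)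
    refine (IsUltrametricDist.norm_add_le_max _ _).trans (max_le ?_ ?_)
    · refine (norm_mul_le _ _).trans ?_
      calc _ ≤ ‖b‖ ^ 2 * 1 := mul_le_mul ih hb (norm_nonneg _) (by positivity)
        _ = _ := mul_one _
    · rw [norm_smul]
      have h2 : ‖(m : ℚ_[p])‖ ≤ 1 := by
        have := Padic.norm_int_le_one (p := p) (m : ℤ)
        simpa using this
      calc _ ≤ 1 * ‖b‖ ^ 2 := mul_le_mul h2 (norm_pow_le' b two_pos) (norm_nonneg _) zero_le_one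
        _ = _ := one_mul _

theorem cauchy {x : R} (hx : ‖x‖ ≤ 1 / 4) : CauchySeq fun k => f p k x := by
  have hp0 : (0 : ℝ) < p := by exact_mod_cast hp.out.pos
  have hp1 : (1 : ℝ) < p := by exact_mod_cast hp.out.one_lt
  refine cauchySeq_of_le_geometric ((p : ℝ)⁻¹) 1 (inv_lt_one_of_one_lt₀ hp1) fun k => ?_
  rw [dist_comm, dist_eq_norm, f_succ, norm_neg, norm_smul, norm_pow, norm_inv, Padic.norm_p, inv_inv,
    one_mul]
  have h1 : ‖(p : ℚ_[p]) ^ k • f p k x‖ ≤ ((p : ℝ)⁻¹) ^ k * (1 / 4) := by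
    rw [norm_smul, norm_pow, Padic.norm_p]
    exact mul_le_mul_of_nonneg_left ((f_norm hx k).trans hx) (by positivity)
  have h2 : ((p : ℝ)⁻¹) ^ k ≤ 1 := pow_le_one₀ (by positivity) (inv_le_one_of_one_le₀ hp1.le)
  have h3 := phi_norm (p := p) (x := (p : ℚ_[p]) ^ k • f p k x) (h1.trans (by linarith)) 1
  calc (p : ℝ) ^ k * ‖φ p 1 ((p : ℚ_[p]) ^ k • f p k x)‖ ≤
        (p : ℝ) ^ k * (2 * (((p : ℝ)⁻¹) ^ k * (1 / 4)) ^ 2) := by
        refine mul_le_mul_of_nonneg_left (h3.trans ?_) (by positivity)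
        have := pow_le_pow_left₀ (norm_nonneg _) h1 2
        linarith
    _ = ((p : ℝ) ^ k * ((p : ℝ)⁻¹) ^ k) * ((p : ℝ)⁻¹) ^ k * (1 / 8) := by ring
    _ = ((p : ℝ)⁻¹) ^ k * (1 / 8) := by
        rw [← mul_pow, mul_inv_cancel₀ hp0.ne', one_pow, one_mul]
    _ ≤ ((p : ℝ)⁻¹) ^ k := by
        have : (0 : ℝ) ≤ ((p : ℝ)⁻¹) ^ k := by positivity
        linarith

theorem exists_log [CompleteSpace R] {x : R} (hx : ‖x‖ ≤ 1 / 4) :
    ∃ ℓ, Tendsto (fun k => f p k x) atTop (𝓝 ℓ) := cauchySeq_tendsto_of_complete (cauchy hx)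

/-- a closed subalgebra which contains the logarithm of `1 + x` contains `x` -/
theorem mem_of_log (S : Subalgebra ℚ_[p] R) (hS : IsClosed (S : Set R)) {x ℓ : R}
    (hx : ‖x‖ ≤ 1 / 4) (hℓ : Tendsto (fun k => f p k x) atTop (𝓝 ℓ)) (hℓS : ℓ ∈ S) : x ∈ S := by
  have hℓn : ‖ℓ‖ ≤ 1 / 4 := le_of_tendsto hℓ.norm (Eventually.of_forall fun k => (f_norm hx k).trans hx)
  have key : ∀ m : ℕ, ∃ y ∈ S, ‖y‖ ≤ 1 / 4 ∧ ‖x - y‖ ≤ (1 / 2 : ℝ) ^ m := by
    intro m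
    induction m with
    | zero =>
      refine ⟨0, S.zero_mem, by simp, ?_⟩
      rw [sub_zero, pow_zero]
      linarith
    | succ m ih =>
      obtain ⟨y, hyS, hy, hxy⟩ := ih
      have h1 : ∀ᶠ k in atTop, ‖f p k x - ℓ‖ < (1 / 2 : ℝ) ^ (m + 1) := by
        have h2 := (tendsto_iff_norm_sub_tendsto_zero.1 hℓ)
        exact h2.eventually (gt_mem_nhds (by positivity))
      obtain ⟨k, hk⟩ := h1.exists
      refine ⟨ℓ + φ p k y, ?_, ?_, ?_⟩
      · refine S.add_mem hℓS ?_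
        unfold φ f
        exact S.sub_mem hyS (S.smul_mem (S.sub_mem (S.pow_mem (S.add_mem S.one_mem hyS) _)
          S.one_mem) _)
      · refine (IsUltrametricDist.norm_add_le_max _ _).trans (max_le hℓn ?_)
        refine (phi_norm hy k).trans ?_
        nlinarith [norm_nonneg y]
      · have h3 : x - (ℓ + φ p k y) = (f p k x - ℓ) + (φ p k x - φ p k y) := by
          have : f p k x = x - φ p k x := by
            unfold φ
            abel
          rw [this]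
          abel
        rw [h3]
        refine (IsUltrametricDist.norm_add_le_max _ _).trans (max_le hk.le ?_)
        refine (phi_lip (p := p) le_rfl hx hy k).trans ?_
        rw [pow_succ]
        linarith
  have h4 : x ∈ closure (S : Set R) := by
    rw [Metric.mem_closure_iff]
    intro ε hε
    obtain ⟨m, hm⟩ := exists_pow_lt_of_lt_one hε (by norm_num : (1 / 2 : ℝ) < 1)
    obtain ⟨y, hyS, _, hxy⟩ := key m
    refine ⟨y, hyS, ?_⟩
    rw [dist_eq_norm]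
    exact hxy.trans_lt hm
  rwa [hS.closure_eq] at h4

/-- a closed subalgebra which contains a power of `1 + x` contains `x` -/
theorem mem_of_pow [CompleteSpace R] (S : Subalgebra ℚ_[p] R) (hS : IsClosed (S : Set R)) {x : R}
    (hx : ‖x‖ ≤ 1 / 4) {m : ℕ} (hm : 0 < m) (hxm : (1 + x) ^ m ∈ S) : x ∈ S := by
  obtain ⟨ℓ, hℓ⟩ := exists_log (p := p) hx
  refine mem_of_log S hS hx hℓ ?_
  have hp0 : (0 : ℝ) < p := by exact_mod_cast hp.out.pos
  have hp1 : (1 : ℝ) < p := by exact_mod_cast hp.out.one_lt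
  have h3 : (p : ℚ_[p]) ≠ 0 := by exact_mod_cast hp.out.ne_zero
  have hm0 : (m : ℚ_[p]) ≠ 0 := by exact_mod_cast hm.ne'
  -- the difference
  set g : ℕ → R := fun k => ((p : ℚ_[p])⁻¹) ^ k • ((1 + x) ^ (m * p ^ k) - 1) with hg
  have h4 : ∀ k, g k ∈ S := by
    intro k
    refine S.smul_mem (S.sub_mem ?_ S.one_mem) _
    rw [pow_mul]
    exact S.pow_mem hxm _
  have h5 : Tendsto g atTop (𝓝 ((m : ℚ_[p]) • ℓ)) := by
    have h6 : Tendsto (fun k => (m : ℚ_[p]) • f p k x) atTop (𝓝 ((m : ℚ_[p]) • ℓ)) :=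
      hℓ.const_smul _
    have h7 : Tendsto (fun k => g k - (m : ℚ_[p]) • f p k x) atTop (𝓝 0) := by
      rw [tendsto_zero_iff_norm_tendsto_zero]
      refine squeeze_zero (fun k => norm_nonneg _) (g := fun k => ((p : ℝ)⁻¹) ^ k) (fun k => ?_)
        (tendsto_pow_atTop_nhds_zero_of_lt_one (by positivity) (inv_lt_one_of_one_lt₀ hp1))
      have h8 : (1 + x) ^ p ^ k = 1 + (p : ℚ_[p]) ^ k • f p k x := by
        unfold f
        rw [smul_smul, ← mul_pow, mul_inv_cancel₀ h3, one_pow, one_smul, add_sub_cancel]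
      have h9 : ‖(p : ℚ_[p]) ^ k • f p k x‖ ≤ ((p : ℝ)⁻¹) ^ k := by
        rw [norm_smul, norm_pow, Padic.norm_p]
        have := (f_norm (p := p) hx k).trans hx
        have h10 : (0 : ℝ) ≤ ((p : ℝ)⁻¹) ^ k := by positivity
        nlinarith
      have h10 : g k - (m : ℚ_[p]) • f p k x = ((p : ℚ_[p])⁻¹) ^ k •
          ((1 + (p : ℚ_[p]) ^ k • f p k x) ^ m - 1 - (m : ℚ_[p]) • ((p : ℚ_[p]) ^ k • f p k x)) := by
        rw [hg]
        simp only
        rw [mul_comm m, pow_mul, h8, smul_sub (((p : ℚ_[p])⁻¹) ^ k) _ ((m : ℚ_[p]) • _), smul_comm _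
          (m : ℚ_[p]), smul_smul (((p : ℚ_[p])⁻¹) ^ k), ← mul_pow, inv_mul_cancel₀ h3, one_pow,
          one_smul]
      rw [h10, norm_smul, norm_pow, norm_inv, Padic.norm_p, inv_inv]
      have h11 : ((p : ℝ)⁻¹) ^ k ≤ 1 := pow_le_one₀ (by positivity) (inv_le_one_of_one_le₀ hp1.le)
      have h12 := pow_quad (p := p) (h9.trans h11) m
      calc (p : ℝ) ^ k * _ ≤ (p : ℝ) ^ k * ((((p : ℝ)⁻¹) ^ k) ^ 2) := by
            refine mul_le_mul_of_nonneg_left (h12.trans ?_) (by positivity)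
            exact pow_le_pow_left₀ (norm_nonneg _) h9 2
        _ = ((p : ℝ) ^ k * ((p : ℝ)⁻¹) ^ k) * ((p : ℝ)⁻¹) ^ k := by ring
        _ = ((p : ℝ)⁻¹) ^ k := by
            rw [← mul_pow, mul_inv_cancel₀ hp0.ne', one_pow, one_mul]
    have h8 := h7.add h6
    rw [zero_add] at h8
    refine h8.congr fun k => ?_
    abel
  have h6 : (m : ℚ_[p]) • ℓ ∈ S := hS.mem_of_tendsto h5 (Eventually.of_forall h4)
  have h7 : ℓ = (m : ℚ_[p])⁻¹ • ((m : ℚ_[p]) • ℓ) := by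
    rw [smul_smul, inv_mul_cancel₀ hm0, one_smul]
  rw [h7]
  exact S.smul_mem h6 _

end Pool.Agent.N817.PL.Log
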