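import Pool.Agent.N817.PL.Unif
import Pool.Agent.W528.Ord.Dens

/-!
# Number fields
-/

set_option autoImplicit false
set_option linter.unusedSectionVars false

namespace Pool.Agent.N817.PL.Main

open Pool.Agent.N817.PL.DD Pool.Agent.N817.PL.Nrm Pool.Agent.N817.PL.Cond Pool.Agent.N817.PL.Abs
open Pool.Agent.N817.PL.Abs3
open Filter Topology Polynomial MeasureTheory NumberField IsDedekindDomain
open Pool.Agent.W401.Cheb Pool.Agent.W528.Ord

section

variable {F : Type*} [Field F] {n : ℕ}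

theorem aeval_semi {A B T : Mat n F} (h : B * T = T * A) (q : Polynomial F) :
    aeval B q * T = T * aeval A q := by
  induction q using Polynomial.induction_on' with
  | add q q' hq hq' => rw [map_add, map_add, add_mul, mul_add, hq, hq']
  | monomial m c =>
    have h1 : ∀ m : ℕ, B ^ m * T = T * A ^ m := by
      intro m
      induction m with
      | zero => rw [pow_zero, pow_zero, one_mul, mul_one]
      | succ m ih => rw [pow_succ, mul_assoc, h, ← mul_assoc, ih, mul_assoc, ← pow_succ]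
    rw [aeval_monomial, aeval_monomial, mul_assoc, h1, Algebra.algebraMap_eq_smul_one,
      smul_mul_assoc, one_mul, smul_mul_assoc, one_mul, mul_smul_comm]

theorem PP_semi {k : ℕ} {A B T T' : Mat n F} (h : B * T = T * A) (hT : T * T' = 1) (m : ℕ)
    (c : Fin k → F) (h0 : PP (A ^ m) c = 0) : PP (B ^ m) c = 0 := by
  unfold PP at h0 ⊢
  have h1 : ∀ m : ℕ, B ^ m * T = T * A ^ m := by
    intro m
    induction m with
    | zero => rw [pow_zero, pow_zero, one_mul, mul_one]
    | succ m ih => rw [pow_succ, mul_assoc, h, ← mul_assoc, ih, mul_assoc, ← pow_succ]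
  have h2 := aeval_semi (h1 m) ((∏ i, (X - Polynomial.C (c i))) ^ n)
  rw [map_pow, map_pow, h0, mul_zero] at h2
  calc _ = (aeval (B ^ m) (∏ i, (X - Polynomial.C (c i)))) ^ n * (T * T') := by rw [hT, mul_one]
    _ = 0 := by rw [← mul_assoc, h2, zero_mul]

end

theorem card_eq {K : Type} [Field K] [NumberField K] (P : Set (HeightOneSpectrum (𝓞 K))) (x : ℕ) :
    (({v : HeightOneSpectrum (𝓞 K) | Ideal.absNorm v.asIdeal ≤ x} ∩ P).ncard : ℝ) =
      dens (fun v => v ∈ P) x * (Nat.primeCounting x : ℝ) ∨ Nat.primeCounting x = 0 := by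
  by_cases h : Nat.primeCounting x = 0
  · exact Or.inr h
  · left
    unfold dens
    have h0 : (Nat.primeCounting x : ℝ) ≠ 0 := by exact_mod_cast h
    rw [div_mul_cancel₀ _ h0]
    rfl

/-- **Main theorem.** -/
theorem main {K : Type} [Field K] [NumberField K] (p : ℕ) [hp : Fact p.Prime] {F : Type}
    [NormedField F] [NormedAlgebra ℚ_[p] F] [CompleteSpace F] {n k : ℕ}
    (r : GK K →* Mat n F) (hr : Continuous r) (hss : Ss r)
    (ψ : Fin k → (GK K →* F)) (hψ : ∀ i, Continuous (ψ i)) {d : ℕ} (hd : 0 < d)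
    (P : Set (HeightOneSpectrum (𝓞 K))) (δ : ℝ) (hδ : 0 < δ)
    (hP : ∃ᶠ x : ℕ in atTop, δ * Nat.primeCounting x ≤
      (({v : HeightOneSpectrum (𝓞 K) | Ideal.absNorm v.asIdeal ≤ x} ∩ P).ncard : ℝ))
    (heig : ∀ v ∈ P, ∃ g, IsFrob v g ∧ ∀ a : AlgebraicClosure F,
      ((r g).charpoly.map (algebraMap F (AlgebraicClosure F))).IsRoot a →
        ∃ i : Fin k, ∃ m : ℕ, 0 < m ∧
          a ^ (d * m) = algebraMap F (AlgebraicClosure F) (ψ i g) ^ m) :
    ∃ U : OpenNormalSubgroup (GK K), ∀ u ∈ (U : Subgroup (GK K)), ∀ v ∈ (U : Subgroup (GK K)),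
      r u * r v = r v * r u := by
  have hult : IsUltrametricDist F := ultra p F
  letI : MeasurableSpace (GK K) := borel (GK K)
  haveI : BorelSpace (GK K) := ⟨rfl⟩
  let μ : Measure (GK K) := Measure.haarMeasure ⊤
  haveI : IsProbabilityMeasure μ := ⟨by
    have := Measure.haarMeasure_self (K₀ := (⊤ : TopologicalSpace.PositiveCompacts (GK K)))
    exact this⟩
  refine Top2.pot_ab2 p r hr hss ψ hψ hd μ fun N hN hrN hψN h0 => ?_
  set Z : Set (GK K) := {g | PP (r g ^ (d * N)) (fun i => ψ i g ^ N) = 0} with hZ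
  have hZcl : IsClosed Z := by
    have h1 : Z = ⋂ ij : Fin n × Fin n,
        {g | PP (r g ^ (d * N)) (fun i => ψ i g ^ N) ij.1 ij.2 = 0} := by
      ext g
      rw [Set.mem_iInter]
      constructor
      · intro hg ij
        change PP (r g ^ (d * N)) (fun i => ψ i g ^ N) ij.1 ij.2 = 0
        have hg' : PP (r g ^ (d * N)) (fun i => ψ i g ^ N) = 0 := hg
        rw [hg']
        rfl
      · intro hg
        change PP (r g ^ (d * N)) (fun i => ψ i g ^ N) = 0
        ext i j
        exact hg (i, j)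
    rw [h1]
    refine isClosed_iInter fun ij => ?_
    exact isClosed_eq (cont_crd2 hr hψ _ (InC.PP (d * N) N ij.1 ij.2)) continuous_const
  have hconj : ∀ σ ∈ Z, ∀ τ : GK K, τ * σ * τ⁻¹ ∈ Z := by
    intro σ hσ τ
    change PP (r (τ * σ * τ⁻¹) ^ (d * N)) (fun i => ψ i (τ * σ * τ⁻¹) ^ N) = 0
    have h1 : (fun i => ψ i (τ * σ * τ⁻¹) ^ N) = fun i => ψ i σ ^ N := by
      ext i
      have h2 : ψ i τ * ψ i τ⁻¹ = 1 := by rw [← map_mul, mul_inv_cancel, map_one]
      rw [map_mul, map_mul, mul_right_comm, h2, one_mul]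
    rw [h1]
    refine PP_semi (T := r τ) (T' := r τ⁻¹) (A := r σ) ?_ ?_ _ _ hσ
    · rw [← map_mul, ← map_mul]
      congr 1
      group
    · rw [← map_mul, mul_inv_cancel, map_one]
  have h1 := dens_null μ Z hZcl hconj h0
  have h2 := h1.eventually (gt_mem_nhds hδ)
  obtain ⟨x, hx1, hx2, hx3⟩ := (hP.and_eventually (h2.and
    (Nat.tendsto_primeCounting.eventually_gt_atTop 0))).exists
  have h3 : (0 : ℝ) < (Nat.primeCounting x : ℝ) := by exact_mod_cast hx3
  rcases card_eq P x with h4 | h4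
  · rw [h4] at hx1
    have h5 : δ ≤ dens (fun v => v ∈ P) x := le_of_mul_le_mul_right hx1 h3
    have h6 : dens (fun v => v ∈ P) x ≤
        dens (fun v : HeightOneSpectrum (𝓞 K) => ∃ σ ∈ Z, IsFrob v σ) x := by
      refine dens_mono (fun v hv => ?_) x
      obtain ⟨g, hg, hga⟩ := heig v hv
      refine ⟨g, ?_, hg⟩
      change PP (r g ^ (d * N)) (fun i => ψ i g ^ N) = 0
      exact Unif.PP_of_eig p (fun i => ψ i g) (hrN g) (fun i => hψN g i) hga
    linarith
  · omega

end Pool.Agent.N817.PL.Main
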