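import Pool.Agent.N817.PL.Aut
import Pool.Agent.N817.PL.Solv
import Pool.Agent.N817.PL.Lie

/-!
# Solvability: the fixed part of an automorphism is orthogonal to the Lie algebra
-/

set_option autoImplicit false
set_option linter.unusedSectionVars false

namespace Pool.Agent.N817.PL.Solv2

open Finset Pool.Agent.N817.PL.Proj Pool.Agent.N817.PL.Solv LieModule Module

attribute [local instance 100] LieRing.ofAssociativeRing

section perfect

variable {k D V : Type*} [Field k] [CharZero k] [IsAlgClosed k] [LieRing D] [LieAlgebra k D]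
  [AddCommGroup V] [Module k V] [LieRingModule D V] [LieModule k D V] [FiniteDimensional k D]
  [FiniteDimensional k V]

theorem perfect2 (σ : D →ₗ⁅k⁆ D) (hσ : Function.Injective σ)
    (hperf : ∀ x : D, x ∈ Submodule.span k {z | ∃ a b : D, z = ⁅a, b⁆})
    (htr : ∀ x y, traceForm k D V (σ x) (σ y) = traceForm k D V x y)
    (hE : ∀ x ∈ End.maxGenEigenspace (σ : End k D) 1, ∀ y, traceForm k D V x y = 0) :
    traceForm k D V = 0 := by
  obtain ⟨N, τ, q, χ, hN0, hτ, hτN, hact⟩ := Aut.exists_tau σ hσ
  have : NeZero N := ⟨hN0.ne'⟩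
  have hN : (N : k) ≠ 0 := by exact_mod_cast NeZero.ne N
  have : NeZero (N : k) := ⟨hN⟩
  obtain ⟨ω, hω⟩ := HasEnoughRootsOfUnity.exists_primitiveRoot k N
  have hω1 := hω.pow_eq_one
  -- the radical of the trace form
  let R : LieIdeal k D :=
    { LinearMap.ker (traceForm k D V) with
      lie_mem := by
        intro a x hx
        have h1 : traceForm k D V x = 0 := hx
        change traceForm k D V ⁅a, x⁆ = 0
        ext y
        rw [traceForm_apply_lie_apply', h1]
        simp }
  have hRmem : ∀ x, x ∈ R ↔ ∀ y, traceForm k D V x y = 0 := by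
    intro x
    constructor
    · intro h y
      have h1 : traceForm k D V x = 0 := h
      rw [h1]
      rfl
    · intro h
      change traceForm k D V x = 0
      ext y
      exact h y
  have hσs : Function.Surjective σ :=
    LinearMap.surjective_of_injective (f := (σ : D →ₗ[k] D)) hσ
  have hRσ : ∀ x ∈ R, σ x ∈ R := by
    intro x hx
    rw [hRmem] at hx ⊢
    intro y
    obtain ⟨z, rfl⟩ := hσs y
    rw [htr]
    exact hx _
  have hRτ : ∀ x ∈ R, τ x ∈ R := by
    intro x hx
    rw [hτ]
    exact Polynomial.aeval_apply_smul_mem_of_le_comap (q := R.toSubmodule) hx q (σ : End k D)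
      fun y hy => hRσ y hy
  have hRit : ∀ (j : ℕ), ∀ x ∈ R, τ^[j] x ∈ R := by
    intro j x hx
    induction j with
    | zero => exact hx
    | succ j ih =>
      rw [Function.iterate_succ_apply']
      exact hRτ _ ih
  have hR : ∀ (i : ZMod N), ∀ x ∈ R, pr τ ω i x ∈ R := by
    intro i x hx
    rw [pr_apply]
    refine R.smul_mem _ (Submodule.sum_mem R.toSubmodule fun j _ => ?_)
    exact R.smul_mem _ (hRit j x hx)
  have h3 : ∀ x, pr τ ω (0 : ZMod N) x ∈ R := by
    intro x
    have hx : x ∈ ⨆ γ, End.maxGenEigenspace (σ : End k D) γ := by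
      rw [End.iSup_maxGenEigenspace_eq_top]
      trivial
    induction hx using Submodule.iSup_induction' with
    | mem γ x hx =>
      obtain ⟨h4, h5, h6⟩ := hact γ x hx
      by_cases hx0 : x = 0
      · rw [hx0, map_zero]
        exact R.zero_mem
      have h7 : ∀ j : ℕ, τ^[j] x = χ γ ^ j • x := by
        intro j
        induction j with
        | zero => simp
        | succ j ih =>
          rw [Function.iterate_succ_apply', ih, map_smul, h4, smul_smul, pow_succ]
      have h8 : pr τ ω (0 : ZMod N) x = ((N : k)⁻¹ * ∑ j ∈ range N, χ γ ^ j) • x := by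
        rw [pr_apply, mul_smul, sum_smul]
        congr 1
        refine sum_congr rfl fun j _ => ?_
        rw [ZMod.val_zero, zero_mul, pow_zero, one_smul, h7]
      rw [h8]
      by_cases hγ : χ γ = 1
      · have hγ1 := h6 hx0 hγ
        rw [hγ1] at hx
        exact R.smul_mem _ ((hRmem x).2 (hE x hx))
      · have h9 := geom_sum_mul (χ γ) N
        rw [h5 hx0, sub_self] at h9
        rcases mul_eq_zero.1 h9 with h10 | h10
        · rw [h10, mul_zero, zero_smul]
          exact R.zero_mem
        · exact absurd (sub_eq_zero.1 h10) hγ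
    | zero =>
      rw [map_zero]
      exact R.zero_mem
    | add x z _ _ hx hz =>
      rw [map_add]
      exact R.add_mem hx hz
  have h4 := Krek.krek (fun i => pr τ ω i) R (fun x => sum_pr hω x)
    (fun i b z u => pr_lie hω1 hτN i b z u) h3 hR hperf
  ext x y
  have : x ∈ R := by
    rw [h4]
    trivial
  exact (hRmem x).1 this y

end perfect

section matrix

open Pool.Agent.N817.PL.DD Pool.Agent.N817.PL.Lie

variable {k : Type*} [Field k] [CharZero k] [IsAlgClosed k] {n : ℕ}

/-- the sum of the first `j` powers, acting by conjugation -/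
theorem Bm_conj (M : (Mat n k)ˣ) (j : ℕ) (x : Mat n k) :
    Bm (M : Mat n k) j x = (∑ i ∈ range j, (M : Mat n k) ^ (i + 1) * x *
      ((M⁻¹ : (Mat n k)ˣ) : Mat n k) ^ (i + 1)) * (M : Mat n k) ^ j := by
  induction j with
  | zero => simp [Bm]
  | succ j ih =>
    unfold Bm
    rw [ih, sum_range_succ, add_mul, pow_succ (M : Mat n k) j, ← mul_assoc _ _ (M : Mat n k)]
    congr 1
    rw [← pow_succ, mul_assoc _ _ ((M : Mat n k) ^ (j + 1))]
    have h1 : ((M⁻¹ : (Mat n k)ˣ) : Mat n k) ^ (j + 1) * (M : Mat n k) ^ (j + 1) = 1 := by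
      rw [← Units.val_pow_eq_pow_val, ← Units.val_pow_eq_pow_val, inv_pow, Units.inv_mul]
    rw [h1, mul_one]

/-- the identity is a combination of the powers `M ^ j` with `1 ≤ j ≤ n` -/
theorem one_eq (M : (Mat n k)ˣ) : ∃ c : ℕ → k,
    (1 : Mat n k) = ∑ j ∈ range n, c j • (M : Mat n k) ^ (j + 1) := by
  have h1 := Matrix.aeval_self_charpoly (M : Mat n k)
  have hdeg : (M : Mat n k).charpoly.natDegree = n := by
    rw [Matrix.charpoly_natDegree_eq_dim, Fintype.card_fin]
  rw [Polynomial.aeval_eq_sum_range, hdeg, sum_range_succ'] at h1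
  simp only [pow_zero] at h1
  have h0 : (M : Mat n k).charpoly.coeff 0 ≠ 0 := by
    have h2 := Matrix.det_eq_sign_charpoly_coeff (M : Mat n k)
    intro h3
    rw [h3, mul_zero] at h2
    have h4 : IsUnit (M : Mat n k).det := (Matrix.isUnit_iff_isUnit_det _).1 M.isUnit
    rw [h2] at h4
    exact not_isUnit_zero h4
  refine ⟨fun j => -((M : Mat n k).charpoly.coeff 0)⁻¹ * (M : Mat n k).charpoly.coeff (j + 1), ?_⟩
  have h2 : (M : Mat n k).charpoly.coeff 0 • (1 : Mat n k) =
      - ∑ j ∈ range n, (M : Mat n k).charpoly.coeff (j + 1) • (M : Mat n k) ^ (j + 1) := by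
    rw [eq_neg_iff_add_eq_zero, add_comm]
    exact h1
  calc (1 : Mat n k) = ((M : Mat n k).charpoly.coeff 0)⁻¹ •
        ((M : Mat n k).charpoly.coeff 0 • (1 : Mat n k)) := by
        rw [smul_smul, inv_mul_cancel₀ h0, one_smul]
    _ = _ := by
        rw [h2, smul_neg, smul_sum, ← sum_neg_distrib]
        refine sum_congr rfl fun j _ => ?_
        simp only [neg_mul, neg_smul, smul_smul]

open Polynomial in
/-- the fixed part is orthogonal -/
theorem orth {D : Type*} [AddCommGroup D] [Module k D] (σ : End k D) (x : D)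
    (hx : x ∈ End.maxGenEigenspace σ 1) (j : ℕ) (hj : 0 < j) :
    ∃ z : D, x = ∑ i ∈ range j, (σ ^ (i + 1)) z := by
  rw [End.mem_maxGenEigenspace] at hx
  obtain ⟨m, hm⟩ := hx
  set s : Polynomial k := ∑ i ∈ range j, X ^ (i + 1) with hs
  have hcop : IsCoprime s ((X - C 1) ^ m) := by
    apply IsCoprime.pow_right
    rw [isCoprime_comm, (irreducible_X_sub_C (1 : k)).coprime_iff_not_dvd, dvd_iff_isRoot]
    intro h
    have h1 : s.eval 1 = j := by
      rw [hs, eval_finsetSum]
      simp
    rw [IsRoot, h1] at h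
    exact hj.ne' (by exact_mod_cast h)
  obtain ⟨a, b, hab⟩ := hcop
  refine ⟨aeval σ a x, ?_⟩
  have h1 := congrArg (fun f : End k D => f x) (congrArg (aeval σ) hab)
  simp only [map_add, map_mul, map_pow, map_sub, aeval_X, map_one, LinearMap.add_apply,
    Module.End.mul_apply, Module.End.one_apply] at h1
  have h2 : ((σ - 1) ^ m) x = 0 := by
    rw [one_smul] at hm
    exact hm
  rw [h2, map_zero, add_zero] at h1
  have h3 : aeval σ a (aeval σ s x) = aeval σ s (aeval σ a x) := by
    rw [← Module.End.mul_apply, ← map_mul, mul_comm, map_mul, Module.End.mul_apply]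
  rw [h3, hs, map_sum] at h1
  simp only [map_pow, aeval_X, LinearMap.sum_apply] at h1
  exact h1.symm

/-- **Solvability.** -/
theorem solvable2 (L : LieSubalgebra k (Mat n k)) (M : (Mat n k)ˣ)
    (hM : ∀ x ∈ L, (M : Mat n k) * x * (M⁻¹ : (Mat n k)ˣ) ∈ L) (W : Submodule k (Mat n k))
    (hW : ∀ x ∈ L, ∀ y ∈ L, x * y - y * x ∈ W)
    (h : ∀ x ∈ W, ∀ y ∈ W, ∀ j, 0 < j → j ≤ n → (Bm (M : Mat n k) j x * y).trace = 0) :
    LieAlgebra.IsSolvable L := by
  -- the derived series stabilises
  let f : ℕ →o (Submodule k L)ᵒᵈ :=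
    { toFun := fun j => OrderDual.toDual (LieAlgebra.derivedSeries k L j).toSubmodule
      monotone' := by
        intro i j hij
        change (LieAlgebra.derivedSeries k L j).toSubmodule ≤
          (LieAlgebra.derivedSeries k L i).toSubmodule
        exact LieAlgebra.derivedSeriesOfIdeal_antitone ⊤ hij }
  obtain ⟨j, hj⟩ := IsArtinian.monotone_stabilizes f
  have hj1 : (LieAlgebra.derivedSeries k L j).toSubmodule =
      (LieAlgebra.derivedSeries k L (j + 1)).toSubmodule := hj (j + 1) (Nat.le_succ j)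
  set D : LieIdeal k L := LieAlgebra.derivedSeries k L j with hD
  have hDD : (⁅D, D⁆ : LieIdeal k L) = D := by
    have h1 : LieAlgebra.derivedSeries k L (j + 1) = (⁅D, D⁆ : LieIdeal k L) :=
      LieAlgebra.derivedSeriesOfIdeal_succ k L ⊤ j
    rw [← h1]
    exact (LieSubmodule.toSubmodule_injective hj1).symm
  have hspan : ∀ x ∈ D, x ∈ Submodule.span k {z : L | ∃ a ∈ D, ∃ b ∈ D, ⁅a, b⁆ = z} := by
    intro x hx
    rw [← hDD, ← LieSubmodule.mem_toSubmodule, LieSubmodule.lieIdeal_oper_eq_linear_span'] at hx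
    exact hx
  have hDW : ∀ x ∈ D, (x : Mat n k) ∈ W := by
    intro x hx
    have h1 : Submodule.span k {z : L | ∃ a ∈ D, ∃ b ∈ D, ⁅a, b⁆ = z} ≤
        W.comap L.toSubmodule.subtype := by
      rw [Submodule.span_le]
      rintro _ ⟨a, _, b, _, rfl⟩
      exact hW a a.2 b b.2
    exact h1 (hspan x hx)
  -- the automorphism of `D`
  have hσD : ∀ x ∈ D, conj L M hM x ∈ D := fun x hx =>
    LieIdeal.derivedSeries_map_le (f := conj L M hM) j (LieIdeal.mem_map hx)
  let σ : D →ₗ⁅k⁆ D :=
    { toFun := fun x => ⟨conj L M hM x, hσD x x.2⟩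
      map_add' := fun x y => Subtype.ext (map_add (conj L M hM) (x : L) y)
      map_smul' := fun c x => Subtype.ext (map_smul (conj L M hM) c (x : L))
      map_lie' := fun {x y} => Subtype.ext (LieHom.map_lie (conj L M hM) (x : L) y) }
  have hσv : ∀ x : D, (((σ x : D) : L) : Mat n k) = M * ((x : L) : Mat n k) * (M⁻¹ : (Mat n k)ˣ) :=
    fun x => rfl
  have hσinj : Function.Injective σ := by
    intro x y hxy
    have h1 := congrArg (fun z : D => ((z : L) : Mat n k)) hxy
    simp only [hσv] at h1
    have h2 := congrArg (fun z : Mat n k => (M⁻¹ : (Mat n k)ˣ) * z * M) h1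
    simp only [mul_assoc, Units.inv_mul, mul_one, Units.inv_mul_cancel_left] at h2
    exact Subtype.ext (Subtype.ext h2)
  have hperf : ∀ x : D, x ∈ Submodule.span k {z | ∃ a b : D, z = ⁅a, b⁆} := by
    intro x
    have h1 : Submodule.span k {z : L | ∃ a ∈ D, ∃ b ∈ D, ⁅a, b⁆ = z} ≤
        (Submodule.span k {z | ∃ a b : D, z = ⁅a, b⁆}).map D.toSubmodule.subtype := by
      rw [Submodule.span_le]
      rintro _ ⟨a, ha, b, hb, rfl⟩
      exact ⟨⁅(⟨a, ha⟩ : D), (⟨b, hb⟩ : D)⁆, Submodule.subset_span ⟨⟨a, ha⟩, ⟨b, hb⟩, rfl⟩, rfl⟩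
    obtain ⟨y, hy, hyx⟩ := h1 (hspan x x.2)
    have h2 : y = x := Subtype.ext hyx
    rwa [h2] at hy
  have hend : ∀ x : D, toEnd k D (Fin n → k) x = Matrix.toLin' ((x : L) : Mat n k) := by
    intro x
    ext v i
    rfl
  have htrace : ∀ x y : D, traceForm k D (Fin n → k) x y =
      (((x : L) : Mat n k) * ((y : L) : Mat n k)).trace := by
    intro x y
    rw [traceForm_apply_apply, hend, hend, ← Matrix.toLin'_mul, Matrix.trace_toLin'_eq]
  have hzero : traceForm k D (Fin n → k) = 0 := by
    refine perfect2 (V := Fin n → k) σ hσinj hperf ?_ ?_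
    · intro x y
      rw [htrace, htrace, hσv, hσv]
      simp only [mul_assoc, Units.inv_mul_cancel_left]
      rw [Matrix.trace_mul_comm]
      simp only [mul_assoc, Units.inv_mul, mul_one]
    · intro x hx y
      rw [htrace]
      rcases Nat.eq_zero_or_pos n with hn | hn
      · subst hn
        simp
      have h1 : ∀ i ∈ range n, (((x : L) : Mat n k) * (M : Mat n k) ^ (i + 1) *
          ((y : L) : Mat n k)).trace = 0 := by
        intro i hi
        obtain ⟨z, hz⟩ := orth (σ : End k D) x hx (i + 1) (Nat.succ_pos i)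
        have h2 : Bm (M : Mat n k) (i + 1) ((z : L) : Mat n k) =
            ((x : L) : Mat n k) * (M : Mat n k) ^ (i + 1) := by
          rw [Bm_conj]
          congr 1
          have h3 : ∀ m : ℕ, ((((σ : End k D) ^ m) z : D) : L) = (conj L M hM)^[m] z := by
            intro m
            induction m with
            | zero => rfl
            | succ m ih =>
              rw [pow_succ', Module.End.mul_apply, Function.iterate_succ_apply', ← ih]
              rfl
          let emb : D →ₗ[k] Mat n k := L.toSubmodule.subtype.comp D.toSubmodule.subtype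
          have h4 := congrArg emb hz
          rw [map_sum] at h4
          change _ = ((x : L) : Mat n k)
          rw [show ((x : L) : Mat n k) = emb x from rfl, h4]
          refine sum_congr rfl fun m _ => ?_
          change _ = (((((σ : End k D) ^ (m + 1)) z : D) : L) : Mat n k)
          rw [h3, conj_iter]
        rw [← h2]
        exact h _ (hDW z z.2) _ (hDW y y.2) _ (Nat.succ_pos i) (mem_range.1 hi)
      obtain ⟨c, hc⟩ := one_eq M
      calc (((x : L) : Mat n k) * ((y : L) : Mat n k)).trace =
          (((x : L) : Mat n k) * 1 * ((y : L) : Mat n k)).trace := by rw [mul_one]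
        _ = 0 := by
          rw [hc, mul_sum, sum_mul, Matrix.trace_sum]
          refine sum_eq_zero fun i hi => ?_
          rw [mul_smul_comm, smul_mul_assoc, Matrix.trace_smul, h1 i hi, smul_zero]
  -- the Lie algebra `D` is nilpotent
  have hnil2 : ∀ x : D, IsNilpotent ((x : L) : Mat n k) := by
    intro x
    have h6 := isNilpotent_derivedSeries_of_traceForm_eq_zero hzero
    rw [LieModule.isNilpotent_iff_forall (R := k)] at h6
    have h7 : x ∈ LieAlgebra.derivedSeries k D 1 := by
      have h9 : Submodule.span k {z | ∃ a b : D, z = ⁅a, b⁆} ≤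
          (LieAlgebra.derivedSeries k D 1 : LieIdeal k D).toSubmodule := by
        rw [Submodule.span_le]
        rintro _ ⟨a, b, rfl⟩
        exact LieSubmodule.lie_mem_lie (LieSubmodule.mem_top a) (LieSubmodule.mem_top b)
      exact h9 (hperf x)
    have h1 : IsNilpotent (toEnd k D (Fin n → k) x) := h6 ⟨x, h7⟩
    rw [hend] at h1
    have h2 := h1.map (Matrix.toLinAlgEquiv' (R := k) (n := Fin n)).symm
    have h3 : Matrix.toLin' ((x : L) : Mat n k) =
      Matrix.toLinAlgEquiv' ((x : L) : Mat n k) := rfl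
    rw [h3, AlgEquiv.symm_apply_apply] at h2
    exact h2
  have hDn : LieRing.IsNilpotent D := by
    rw [LieAlgebra.isNilpotent_iff_forall (R := k)]
    intro x
    exact LieSubalgebra.isNilpotent_ad_of_isNilpotent_ad (D : LieSubalgebra k L) (x := ⟨x, x.2⟩)
      (LieAlgebra.isNilpotent_ad_of_isNilpotent (hnil2 x))
  have hDs : LieAlgebra.IsSolvable D := inferInstance
  obtain ⟨m, hm⟩ := LieAlgebra.IsSolvable.solvable k D
  rw [LieIdeal.derivedSeries_eq_bot_iff] at hm
  refine LieAlgebra.IsSolvable.mk (R := k) (k := m + j) ?_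
  rw [LieAlgebra.derivedSeries_def, LieAlgebra.derivedSeriesOfIdeal_add]
  exact hm

end matrix

end Pool.Agent.N817.PL.Solv2
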