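import Pool.Agent.N817.PL.Cond

/-!
# The main argument for profinite groups, general form
-/

set_option autoImplicit false
set_option linter.unusedSectionVars false

namespace Pool.Agent.N817.PL.Top2

open Pool.Agent.N817.PL.DD Pool.Agent.N817.PL.Nrm Pool.Agent.N817.PL.Cond Pool.Agent.N817.PL.Abs
open Pool.Agent.N817.PL.Abs3 Filter Topology MeasureTheory Polynomial

attribute [local instance] nring nalg

section delta

variable {p : ℕ} [hp : Fact p.Prime] {F : Type*} [NormedField F] [NormedAlgebra ℚ_[p] F]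
  [CompleteSpace F] [IsUltrametricDist F] {n : ℕ} {G : Type*} [Group G]

theorem trace_em (A : Mat n F) :
    ((algebraMap F (AlgebraicClosure F)).mapMatrix A).trace =
      algebraMap F (AlgebraicClosure F) A.trace := by
  simp [Matrix.trace, map_sum]

theorem aeval_prod {k : ℕ} (A : Mat n F) (m : ℕ) (c : Fin k → F) (s : Finset (Fin k)) :
    aeval ((algebraMap F (AlgebraicClosure F)).mapMatrix A)
      (∏ i ∈ s, (X ^ m - Polynomial.C (algebraMap F (AlgebraicClosure F) (c i)))) =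
    (algebraMap F (AlgebraicClosure F)).mapMatrix
      (aeval (A ^ m) (∏ i ∈ s, (X - Polynomial.C (c i)))) := by
  classical
  induction s using Finset.induction_on with
  | empty => simp only [Finset.prod_empty, map_one]
  | insert i s hi ih =>
    rw [Finset.prod_insert hi, Finset.prod_insert hi, map_mul, map_mul, map_mul, ih]
    congr 1
    rw [map_sub, map_sub, map_sub, aeval_X, aeval_C, aeval_C, map_pow, aeval_X, map_pow]
    congr 1
    ext a b
    by_cases hab : a = b
    · subst hab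
      simp [Matrix.algebraMap_matrix_apply]
    · simp [Matrix.algebraMap_matrix_apply, hab]

theorem exists_delta (r : G →* Mat n F) (W : Subgroup G) (z : G)
    (q : Polynomial (AlgebraicClosure F)) (hq : q ≠ 0)
    (h : ∀ w ∈ W, IsNilpotent (aeval ((algebraMap F (AlgebraicClosure F)).mapMatrix (r (z * w))) q)) :
    ∃ δ > 0, ∀ w ∈ W, ‖r w - 1‖ < δ → ∀ j, 0 < j → j ≤ n →
      (r (z * w) ^ j).trace = (r z ^ j).trace := by
  classical
  set f := algebraMap F (AlgebraicClosure F) with hf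
  have hfin : ∀ j, 0 < j → {t : F | ∃ w ∈ W, t = (r (z * w) ^ j).trace}.Finite := by
    intro j hj
    have h1 := finite_traces (n := n) q hq hj
    refine Set.Finite.of_finite_image (f := f) (h1.subset ?_) f.injective.injOn
    rintro _ ⟨_, ⟨w, hw, rfl⟩, rfl⟩
    refine ⟨_, h w hw, ?_⟩
    rw [show f.mapMatrix (r (z * w)) ^ j = f.mapMatrix (r (z * w) ^ j) from (map_pow _ _ _).symm]
    exact (trace_em _).symm
  have hcont : ∀ j, ContinuousAt (fun X : Mat n F => ((r z * X) ^ j).trace) 1 := by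
    intro j
    have h1 : Continuous fun X : Mat n F => ((r z * X) ^ j).trace :=
      Abs2.continuous_trace.comp ((continuous_const.mul continuous_id).pow j)
    exact h1.continuousAt
  have hev : ∀ᶠ X : Mat n F in 𝓝 1, ∀ j ∈ Finset.Icc 1 n,
      ((r z * X) ^ j).trace ∉ {t : F | ∃ w ∈ W, t = (r (z * w) ^ j).trace} \ {(r z ^ j).trace} := by
    rw [Filter.eventually_all_finset]
    intro j hj
    rw [Finset.mem_Icc] at hj
    have h1 : IsClosed ({t : F | ∃ w ∈ W, t = (r (z * w) ^ j).trace} \ {(r z ^ j).trace}) :=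
      ((hfin j hj.1).subset Set.sdiff_subset).isClosed
    have h2 := (hcont j).preimage_mem_nhds (h1.isOpen_compl.mem_nhds (by
      simp only [mul_one, Set.mem_compl_iff]
      intro h3
      exact h3.2 rfl))
    exact h2
  obtain ⟨δ, hδ0, hδ⟩ := Metric.eventually_nhds_iff.1 hev
  refine ⟨δ, hδ0, fun w hw hwδ j hj0 hjn => ?_⟩
  have h1 := hδ (y := r w) (by rwa [dist_eq_norm]) j (Finset.mem_Icc.2 ⟨hj0, hjn⟩)
  rw [← map_mul] at h1
  by_contra h2
  exact h1 ⟨⟨w, hw, rfl⟩, h2⟩

end delta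

section top

variable {G : Type*} [Group G] [TopologicalSpace G] [IsTopologicalGroup G] [CompactSpace G]
  [TotallyDisconnectedSpace G] [T2Space G] [MeasurableSpace G] [BorelSpace G]

/-- a small open normal subgroup -/
theorem exists_small2 {F : Type*} [NormedField F] [IsUltrametricDist F] {n k : ℕ} (r : G →* Mat n F)
    (hr : Continuous r) (ψ : Fin k → (G →* F)) (hψ : ∀ i, Continuous (ψ i)) :
    ∃ U : OpenNormalSubgroup G, (∀ u ∈ (U : Subgroup G), ‖r u - 1‖ ≤ 1 / 4) ∧
      ∀ u ∈ (U : Subgroup G), ∀ i, ‖ψ i u - 1‖ ≤ 1 / 4 := by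
  have h2 : IsOpen {g : G | ‖r g - 1‖ < 1 / 4} :=
    isOpen_lt ((hr.sub continuous_const).norm) continuous_const
  have h3 : ∀ i, IsOpen {g : G | ‖ψ i g - 1‖ < 1 / 4} := fun i =>
    isOpen_lt (((hψ i).sub continuous_const).norm) continuous_const
  obtain ⟨U, hU⟩ := ProfiniteGrp.exist_openNormalSubgroup_sub_open_nhds_of_one
    (h2.inter (isOpen_iInter_of_finite h3))
    ⟨by
      change ‖r 1 - 1‖ < 1 / 4
      rw [map_one, sub_self, norm_zero]
      norm_num, by
      rw [Set.mem_iInter]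
      intro i
      change ‖ψ i 1 - 1‖ < 1 / 4
      rw [map_one, sub_self, norm_zero]
      norm_num⟩
  exact ⟨U, fun u hu => (hU hu).1.le, fun u hu i => (Set.mem_iInter.1 (hU hu).2 i).le⟩

theorem index_ne (U : OpenNormalSubgroup G) : (U : Subgroup G).index ≠ 0 := by
  have : Finite (G ⧸ (U : Subgroup G)) := Subgroup.quotient_finite_of_isOpen _ U.isOpen'
  exact (Subgroup.finiteIndex_of_finite_quotient (H := (U : Subgroup G))).index_ne_zero

/-- **Potentially abelian.** -/
theorem pot_ab2 (p : ℕ) [hp : Fact p.Prime] {F : Type*} [NormedField F] [NormedAlgebra ℚ_[p] F]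
    [CompleteSpace F] [IsUltrametricDist F] {n k : ℕ} (r : G →* Mat n F)
    (hr : Continuous r) (hss : Ss r) (ψ : Fin k → (G →* F)) (hψ : ∀ i, Continuous (ψ i))
    {d : ℕ} (hd : 0 < d) (μ : Measure G) [IsFiniteMeasure μ] [μ.IsMulLeftInvariant]
    (h : ∀ N : ℕ, 0 < N → (∀ g, ‖r g ^ N - 1‖ ≤ 1 / 4) → (∀ g i, ‖ψ i g ^ N - 1‖ ≤ 1 / 4) →
      μ {g | PP (r g ^ (d * N)) (fun i => ψ i g ^ N) = 0} ≠ 0) :
    ∃ U : OpenNormalSubgroup G, ∀ u ∈ (U : Subgroup G), ∀ v ∈ (U : Subgroup G),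
      r u * r v = r v * r u := by
  obtain ⟨C, hC⟩ := Top.bounded r hr
  obtain ⟨U₁, hU₁r, hU₁ψ⟩ := exists_small2 r hr ψ hψ
  have hU₁n : (U₁ : Subgroup G).Normal := U₁.isNormal'
  set N := (U₁ : Subgroup G).index with hN
  have hN0 : 0 < N := Nat.pos_of_ne_zero (index_ne U₁)
  have hpow : ∀ g, ‖r g ^ N - 1‖ ≤ 1 / 4 := by
    intro g
    rw [← map_pow]
    exact hU₁r _ (Subgroup.pow_index_mem (U₁ : Subgroup G) g)
  have hpow2 : ∀ g i, ‖ψ i g ^ N - 1‖ ≤ 1 / 4 := by
    intro g i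
    rw [← map_pow]
    exact hU₁ψ _ (Subgroup.pow_index_mem (U₁ : Subgroup G) g) i
  -- the algebraic subset
  have hnoeth := noeth2 (r := r) (ψ := ψ)
  let T : Set (crd2 r ψ) := Set.range fun ij : Fin n × Fin n =>
    (⟨fun g => PP (r g ^ (d * N)) (fun i => ψ i g ^ N) ij.1 ij.2, InC.PP (d * N) N ij.1 ij.2⟩ :
      crd2 r ψ)
  have hV : Coset.V (crd2 r ψ) (Ideal.span T) =
      {g | PP (r g ^ (d * N)) (fun i => ψ i g ^ N) = 0} := by
    ext g
    constructor
    · intro hg
      change PP (r g ^ (d * N)) (fun i => ψ i g ^ N) = 0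
      ext i j
      exact hg _ (Ideal.subset_span ⟨(i, j), rfl⟩)
    · intro hg
      have hg' : PP (r g ^ (d * N)) (fun i => ψ i g ^ N) = 0 := hg
      have h1 : Ideal.span T ≤ RingHom.ker (Coset.ev (crd2 r ψ) g) := by
        rw [Ideal.span_le]
        rintro _ ⟨⟨i, j⟩, rfl⟩
        change PP (r g ^ (d * N)) (fun i => ψ i g ^ N) i j = 0
        rw [hg']
        rfl
      exact fun f hf => h1 hf
  obtain ⟨z, H, hH, hz⟩ := Coset.exists_coset μ (crd2 r ψ) (cont_crd2 hr hψ) trans_mem2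
    (Ideal.span T) (by
      rw [hV]
      exact h N hN0 hpow hpow2)
  rw [hV] at hz
  -- a small normal subgroup
  obtain ⟨U, hUO, hU⟩ := Top.exists_small r hr ((fun g => z * g * z⁻¹) ⁻¹' (H : Set G))
    (hH.preimage (by fun_prop)) (by simp)
  have hUn : (U : Subgroup G).Normal := U.isNormal'
  refine ⟨U, ?_⟩
  -- the subgroup on which the characters are trivial
  let W : Subgroup G :=
    { carrier := {w | w ∈ (U : Subgroup G) ∧ ∀ i, ψ i w = 1}
      mul_mem' := by
        rintro a b ⟨ha, ha'⟩ ⟨hb, hb'⟩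
        exact ⟨(U : Subgroup G).mul_mem ha hb, fun i => by rw [map_mul, ha', hb', mul_one]⟩
      one_mem' := ⟨(U : Subgroup G).one_mem, fun i => map_one _⟩
      inv_mem' := by
        rintro a ⟨ha, ha'⟩
        refine ⟨(U : Subgroup G).inv_mem ha, fun i => ?_⟩
        have h1 : ψ i a⁻¹ * ψ i a = 1 := by rw [← map_mul, inv_mul_cancel, map_one]
        rwa [ha', mul_one] at h1 }
  have hW : ∀ a ∈ (U : Subgroup G), ∀ b ∈ (U : Subgroup G), a * b * a⁻¹ * b⁻¹ ∈ W := by
    intro a ha b hb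
    refine ⟨(U : Subgroup G).mul_mem ((U : Subgroup G).mul_mem ((U : Subgroup G).mul_mem ha hb)
      ((U : Subgroup G).inv_mem ha)) ((U : Subgroup G).inv_mem hb), fun i => ?_⟩
    have h1 : ψ i a * ψ i a⁻¹ = 1 := by rw [← map_mul, mul_inv_cancel, map_one]
    have h2 : ψ i b * ψ i b⁻¹ = 1 := by rw [← map_mul, mul_inv_cancel, map_one]
    rw [map_mul, map_mul, map_mul]
    calc ψ i a * ψ i b * ψ i a⁻¹ * ψ i b⁻¹ = (ψ i a * ψ i a⁻¹) * (ψ i b * ψ i b⁻¹) := by ring
      _ = 1 := by rw [h1, h2, mul_one]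
  have hWU : ∀ w ∈ W, w ∈ (U : Subgroup G) := fun w hw => hw.1
  set f := algebraMap F (AlgebraicClosure F) with hf
  let q : Polynomial (AlgebraicClosure F) := ∏ i, (X ^ (d * N) - Polynomial.C (f (ψ i z ^ N)))
  have hq : q ≠ 0 := by
    refine Finset.prod_ne_zero_iff.2 fun i _ => ?_
    exact (monic_X_pow_sub_C _ (Nat.mul_pos hd hN0).ne').ne_zero
  have hPP : ∀ w ∈ W, PP (r (z * w) ^ (d * N)) (fun i => ψ i z ^ N) = 0 := by
    intro w hw
    have h1 : z * w = (z * w * z⁻¹) * z := by group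
    have h2 := hz _ (hUO (hWU w hw))
    rw [Set.mem_ofPred_eq] at h2
    have h3 : z * w * z⁻¹ * z = z * w := by group
    rw [h3] at h2
    have h4 : (fun i => ψ i (z * w) ^ N) = fun i => ψ i z ^ N := by
      ext i
      rw [map_mul, hw.2 i, mul_one]
    rwa [h4] at h2
  have hnil : ∀ w ∈ W, IsNilpotent (aeval (f.mapMatrix (r (z * w))) q) := by
    intro w hw
    refine ⟨n, ?_⟩
    have h1 := hPP w hw
    unfold PP at h1
    have h2 : aeval (f.mapMatrix (r (z * w))) q =
        f.mapMatrix (aeval (r (z * w) ^ (d * N)) (∏ i, (X - Polynomial.C (ψ i z ^ N)))) := by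
      exact aeval_prod _ _ _ _
    rw [h2, ← map_pow, h1, map_zero]
  obtain ⟨δ, hδ0, hδ⟩ := exists_delta r W z q hq hnil
  have hsolv := solv (p := p) r hC (U : Subgroup G) W z (fun v hv => hUn.conj_mem v hv z) hW hδ0 hδ
  intro u hu v hv
  refine commutes2 r hss (U : Subgroup G) (fun g v hv => hUn.conj_mem v hv g) ?_ u hu v hv
  intro V hV hV0
  exact common2 (p := p) r hC (U : Subgroup G) hU hsolv V hV hV0

end top

end Pool.Agent.N817.PL.Top2
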