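import Pool.Agent.N817.PL.Top2

/-!
# Uniform exponents
-/

set_option autoImplicit false
set_option linter.unusedSectionVars false

namespace Pool.Agent.N817.PL.Unif

open Pool.Agent.N817.PL.DD Pool.Agent.N817.PL.Nrm Pool.Agent.N817.PL.Cond Pool.Agent.N817.PL.Abs
open Filter Topology Polynomial

attribute [local instance] nring nalg

section

variable {F : Type*} [Field F] {n : ℕ}

/-- the pairs of a matrix and its eigenvalue at `v` -/
def SP (v : Fin n → AlgebraicClosure F) : Subalgebra F (Mat n F × F) where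
  carrier := {A | ((algebraMap F (AlgebraicClosure F)).mapMatrix A.1).mulVec v =
    algebraMap F (AlgebraicClosure F) A.2 • v}
  mul_mem' := by
    rintro ⟨A, a⟩ ⟨B, b⟩ ha hb
    simp only [Set.mem_ofPred_eq, Prod.mk_mul_mk] at ha hb ⊢
    rw [map_mul, ← Matrix.mulVec_mulVec, hb, Matrix.mulVec_smul, ha, smul_smul, map_mul, mul_comm]
  add_mem' := by
    rintro ⟨A, a⟩ ⟨B, b⟩ ha hb
    simp only [Set.mem_ofPred_eq, Prod.mk_add_mk] at ha hb ⊢
    rw [map_add, Matrix.add_mulVec, ha, hb, map_add, add_smul]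
  algebraMap_mem' := by
    intro c
    have h1 : (algebraMap F (AlgebraicClosure F)).mapMatrix (algebraMap F (Mat n F) c) =
        (algebraMap F (AlgebraicClosure F) c) • (1 : Mat n (AlgebraicClosure F)) := by
      ext i j
      by_cases h : i = j
      · subst h
        simp [Matrix.algebraMap_matrix_apply]
      · simp [Matrix.algebraMap_matrix_apply, h]
    change ((algebraMap F (AlgebraicClosure F)).mapMatrix (algebraMap F (Mat n F) c)).mulVec v =
      algebraMap F (AlgebraicClosure F) c • v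
    rw [h1, Matrix.smul_mulVec, Matrix.one_mulVec]

end

theorem ultra_prod {X Y : Type*} [PseudoMetricSpace X] [PseudoMetricSpace Y] [IsUltrametricDist X]
    [IsUltrametricDist Y] : IsUltrametricDist (X × Y) := by
  refine ⟨fun x y z => ?_⟩
  rw [Prod.dist_eq, Prod.dist_eq, Prod.dist_eq]
  refine max_le ?_ ?_
  · exact (dist_triangle_max x.1 y.1 z.1).trans (max_le_max (le_max_left _ _) (le_max_left _ _))
  · exact (dist_triangle_max x.2 y.2 z.2).trans (max_le_max (le_max_right _ _) (le_max_right _ _))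

theorem eig_one (p : ℕ) [hp : Fact p.Prime] {F : Type*} [NormedField F]
    [NormedAlgebra ℚ_[p] F] [CompleteSpace F] [IsUltrametricDist F] {n : ℕ} {B : Mat n F}
    (hB : ‖B - 1‖ ≤ 1 / 4) (v : Fin n → AlgebraicClosure F) {m : ℕ} (hm : 0 < m)
    (h : ((algebraMap F (AlgebraicClosure F)).mapMatrix (B ^ m)).mulVec v = v) :
    ((algebraMap F (AlgebraicClosure F)).mapMatrix B).mulVec v = v := by
  let inst : NontriviallyNormedField F :=
    { (inferInstance : NormedField F) with
      non_trivial := by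
        refine ⟨algebraMap ℚ_[p] F ((p : ℚ_[p])⁻¹), ?_⟩
        rw [norm_algebraMap', norm_inv, Padic.norm_p, inv_inv]
        exact_mod_cast hp.out.one_lt }
  have hcomp : @CompleteSpace (Mat n F) PseudoMetricSpace.toUniformSpace := complete
  have hult : IsUltrametricDist (Mat n F) := ultraMat
  have hult2 : IsUltrametricDist (Mat n F × F) := ultra_prod
  have hcl : IsClosed (((SP v).restrictScalars ℚ_[p] : Subalgebra ℚ_[p] (Mat n F × F)) :
      Set (Mat n F × F)) := by
    exact Submodule.closed_of_finiteDimensional (Subalgebra.toSubmodule (SP v))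
  have h1 := Log.mem_of_pow (p := p) (R := Mat n F × F) ((SP v).restrictScalars ℚ_[p]) hcl
    (x := (B - 1, 0)) (by
      rw [Prod.norm_def]
      simp only [norm_zero]
      exact max_le hB (by norm_num)) hm (by
      have h2 : (1 : Mat n F × F) + (B - 1, 0) = (B, 1) := by
        ext <;> simp
      rw [h2, Prod.pow_mk, one_pow]
      change _ = _
      simp only [map_one, one_smul]
      exact h)
  have h2 : ((algebraMap F (AlgebraicClosure F)).mapMatrix (B - 1)).mulVec v =
    algebraMap F (AlgebraicClosure F) 0 • v := h1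
  rw [map_sub, map_one, map_zero, zero_smul, Matrix.sub_mulVec, Matrix.one_mulVec,
    sub_eq_zero] at h2
  exact h2

theorem exists_eigvec {Ω : Type*} [Field Ω] {n : ℕ} {A : Mat n Ω} {a : Ω}
    (ha : A.charpoly.IsRoot a) : ∃ v, v ≠ 0 ∧ A.mulVec v = a • v := by
  have h1 : (Matrix.scalar (Fin n) a - A).det = 0 := by
    rw [← Matrix.eval_charpoly]
    exact ha
  obtain ⟨v, hv0, hv⟩ := Matrix.exists_mulVec_eq_zero_iff.2 h1
  refine ⟨v, hv0, ?_⟩
  rw [Matrix.sub_mulVec, sub_eq_zero] at hv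
  rw [← hv]
  ext i
  simp [Matrix.scalar_apply, Matrix.mulVec_diagonal]

theorem pow_mulVec {Ω : Type*} [Field Ω] {n : ℕ} {A : Mat n Ω} {a : Ω} {v : Fin n → Ω}
    (h : A.mulVec v = a • v) (m : ℕ) : (A ^ m).mulVec v = a ^ m • v := by
  induction m with
  | zero => simp
  | succ m ih => rw [pow_succ', ← Matrix.mulVec_mulVec, ih, Matrix.mulVec_smul, h, smul_smul,
      pow_succ]

theorem near_pow (p : ℕ) [hp : Fact p.Prime] {R : Type*} [NormedRing R] [IsUltrametricDist R]
    [NormedAlgebra ℚ_[p] R] {x : R} (hx : ‖x - 1‖ ≤ 1 / 4) (d : ℕ) : ‖x ^ d - 1‖ ≤ 1 / 4 := by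
  have h1 := Log.pow_quad (p := p) (b := x - 1) (hx.trans (by norm_num)) d
  rw [add_sub_cancel] at h1
  have h2 : x ^ d - 1 = (x ^ d - 1 - (d : ℚ_[p]) • (x - 1)) + (d : ℚ_[p]) • (x - 1) := by abel
  rw [h2]
  refine (IsUltrametricDist.norm_add_le_max _ _).trans (max_le (h1.trans ?_) ?_)
  · nlinarith [norm_nonneg (x - 1)]
  · rw [norm_smul]
    have h3 : ‖(d : ℚ_[p])‖ ≤ 1 := by
      have := Padic.norm_int_le_one (p := p) (d : ℤ)
      simpa using this
    nlinarith [norm_nonneg (x - 1), norm_nonneg (d : ℚ_[p])]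

theorem eig_eq (p : ℕ) [hp : Fact p.Prime] {F : Type*} [NormedField F]
    [NormedAlgebra ℚ_[p] F] [CompleteSpace F] [IsUltrametricDist F] {n : ℕ} {A : Mat n F} {c : F}
    {d N m : ℕ} (hA : ‖A ^ N - 1‖ ≤ 1 / 4) (hc : ‖c ^ N - 1‖ ≤ 1 / 4) (hm : 0 < m)
    {a : AlgebraicClosure F} (ha : (A.charpoly.map (algebraMap F (AlgebraicClosure F))).IsRoot a)
    (h : a ^ (d * m) = algebraMap F (AlgebraicClosure F) c ^ m) :
    a ^ (d * N) = algebraMap F (AlgebraicClosure F) c ^ N := by
  set f := algebraMap F (AlgebraicClosure F) with hf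
  rw [← Matrix.charpoly_map] at ha
  obtain ⟨v, hv0, hv⟩ := exists_eigvec ha
  have hult : IsUltrametricDist (Mat n F) := ultraMat
  have hcn : ‖c ^ N‖ = 1 := by
    have h1 : c ^ N = 1 + (c ^ N - 1) := by ring
    rw [h1]
    have h2 : ‖(1 : F)‖ ≠ ‖c ^ N - 1‖ := by
      rw [norm_one]
      intro h3
      rw [← h3] at hc
      norm_num at hc
    rw [IsUltrametricDist.norm_add_eq_max_of_norm_ne_norm h2, norm_one]
    exact max_eq_left (hc.trans (by norm_num))
  have hc0 : c ^ N ≠ 0 := by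
    intro h0
    rw [h0, norm_zero] at hcn
    norm_num at hcn
  set B : Mat n F := (c ^ N)⁻¹ • A ^ (d * N) with hB
  have hAd : ‖A ^ (d * N) - 1‖ ≤ 1 / 4 := by
    rw [mul_comm, pow_mul]
    exact near_pow p hA d
  have hB1 : ‖B - 1‖ ≤ 1 / 4 := by
    have h1 : B - 1 = (c ^ N)⁻¹ • ((A ^ (d * N) - 1) - (c ^ N - 1) • (1 : Mat n F)) := by
      rw [hB, smul_sub, smul_sub, smul_smul, mul_sub, inv_mul_cancel₀ hc0, mul_one, sub_smul,
        one_smul]
      abel
    rw [h1, norm_smul, norm_inv, hcn, inv_one, one_mul]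
    refine (Log.norm_sub_max _ _).trans (max_le hAd ?_)
    rw [norm_smul]
    have h2 : ‖(1 : Mat n F)‖ ≤ 1 := by
      rw [norm_le zero_le_one]
      intro i j
      by_cases hij : i = j
      · subst hij
        simp
      · simp [hij]
    nlinarith [norm_nonneg (c ^ N - 1), norm_nonneg (1 : Mat n F)]
  have hBv : (f.mapMatrix B).mulVec v = ((f c ^ N)⁻¹ * a ^ (d * N)) • v := by
    have hv' : (f.mapMatrix A).mulVec v = a • v := hv
    have h0 : f.mapMatrix B = (f c ^ N)⁻¹ • f.mapMatrix (A ^ (d * N)) := by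
      ext i j
      rw [hB]
      change f ((c ^ N)⁻¹ * (A ^ (d * N)) i j) = (f c ^ N)⁻¹ * f ((A ^ (d * N)) i j)
      rw [map_mul, map_inv₀, map_pow]
    have h1 : f.mapMatrix B = (f c ^ N)⁻¹ • (f.mapMatrix A) ^ (d * N) := by
      rw [h0, map_pow]
    rw [h1, Matrix.smul_mulVec, pow_mulVec hv', smul_smul]
  have hfc0 : f c ^ N ≠ 0 := by
    rw [← map_pow, Ne, map_eq_zero]
    exact hc0
  have h2 : (f.mapMatrix (B ^ m)).mulVec v = v := by
    have h5 : ((f c ^ N)⁻¹ * a ^ (d * N)) ^ m = 1 := by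
      rw [mul_pow, ← pow_mul, inv_pow, show d * N * m = d * m * N by ring, pow_mul a, h, ← pow_mul,
        ← pow_mul, mul_comm N m]
      refine inv_mul_cancel₀ ?_
      rw [mul_comm, pow_mul]
      exact pow_ne_zero _ hfc0
    rw [map_pow, pow_mulVec hBv, h5, one_smul]
  have h3 := eig_one p hB1 v hm h2
  rw [hBv] at h3
  have h4 : (f c ^ N)⁻¹ * a ^ (d * N) = 1 := by
    obtain ⟨i, hi⟩ := Function.ne_iff.1 hv0
    have h5 := congrFun h3 i
    rw [Pi.smul_apply, smul_eq_mul] at h5
    exact mul_right_cancel₀ hi (h5.trans (one_mul _).symm)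
  rw [inv_mul_eq_one₀ hfc0] at h4
  exact h4.symm

theorem PP_of_eig (p : ℕ) [hp : Fact p.Prime] {F : Type*} [NormedField F]
    [NormedAlgebra ℚ_[p] F] [CompleteSpace F] [IsUltrametricDist F] {n k : ℕ} {A : Mat n F}
    (c : Fin k → F) {d N : ℕ} (hA : ‖A ^ N - 1‖ ≤ 1 / 4) (hc : ∀ i, ‖c i ^ N - 1‖ ≤ 1 / 4)
    (h : ∀ a : AlgebraicClosure F,
      (A.charpoly.map (algebraMap F (AlgebraicClosure F))).IsRoot a → ∃ i : Fin k, ∃ m : ℕ,
        0 < m ∧ a ^ (d * m) = algebraMap F (AlgebraicClosure F) (c i) ^ m) :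
    PP (A ^ (d * N)) (fun i => c i ^ N) = 0 := by
  set f := algebraMap F (AlgebraicClosure F) with hf
  set q := A.charpoly.map f with hq
  have hqm : q.Monic := A.charpoly_monic.map f
  have hqd : q.natDegree = n := by
    rw [hq, A.charpoly_monic.natDegree_map, Matrix.charpoly_natDegree_eq_dim, Fintype.card_fin]
  have hspl : q.Splits := IsAlgClosed.splits q
  set Q : Polynomial (AlgebraicClosure F) := ∏ i : Fin k, (X ^ (d * N) - C (f (c i ^ N))) with hQ
  have h1 : ∀ a ∈ q.roots, Q.IsRoot a := by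
    intro a ha
    obtain ⟨i, m, hm, hi⟩ := h a (isRoot_of_mem_roots ha)
    have h2 := eig_eq p hA (hc i) hm (isRoot_of_mem_roots ha) hi
    rw [IsRoot.def, hQ, eval_prod]
    refine Finset.prod_eq_zero (Finset.mem_univ i) ?_
    rw [eval_sub, eval_pow, eval_X, eval_C, h2, map_pow, sub_self]
  have h2 : q ∣ Q ^ n := by
    have h4 : q = (q.roots.map fun b => X - C b).prod := by
      have := hspl.eq_prod_roots
      rw [hqm.leadingCoeff, C_1, one_mul] at this
      exact this
    have h5 : Multiset.card q.roots = n := by rw [← hspl.natDegree_eq_card_roots, hqd]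
    rw [h4]
    have h6 : ∀ s : Multiset (AlgebraicClosure F), (∀ b ∈ s, Q.IsRoot b) →
        (s.map fun b => X - C b).prod ∣ Q ^ Multiset.card s := by
      intro s
      induction s using Multiset.induction_on with
      | empty => simp
      | cons b s ih =>
        intro hs
        rw [Multiset.map_cons, Multiset.prod_cons, Multiset.card_cons, pow_succ']
        refine mul_dvd_mul ?_ (ih fun b hb => hs b (Multiset.mem_cons_of_mem hb))
        rw [dvd_iff_isRoot]
        exact hs b (Multiset.mem_cons_self b s)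
    have h7 := h6 q.roots h1
    rwa [h5] at h7
  have h3 : aeval (f.mapMatrix A) (Q ^ n) = 0 := by
    obtain ⟨t, ht⟩ := h2
    have h4 : aeval (f.mapMatrix A) q = 0 := by
      rw [hq, ← Matrix.charpoly_map]
      exact Matrix.aeval_self_charpoly _
    rw [ht, map_mul, h4, zero_mul]
  have h4 : f.mapMatrix (PP (A ^ (d * N)) (fun i => c i ^ N)) = 0 := by
    unfold PP
    rw [map_pow, ← Top2.aeval_prod, ← map_pow]
    exact h3
  ext i j
  have h7 := congrFun (congrFun h4 i) j
  simpa using h7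

end Pool.Agent.N817.PL.Unif
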